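import Pool.Agent.TH8.UNI.Conv
import Pool.Agent.TH143.GT.Fin

/-!
Unirational varieties and curves with a Zariski-dense graph.
-/

set_option autoImplicit false

open MvPolynomial Metric Set Filter Topology Pool.Agent.TH143 Pool.Agent.TH143.GT
  Pool.Agent.W602.GT

namespace Pool.Agent.TH8.UNI

/-- the derivatives of exponential sums -/
theorem iter_exp (T : Finset ℕ) (c lam : ℕ → ℂ) (i : ℕ) :
    iteratedDeriv i (fun z => ∑ k ∈ T, c k * Complex.exp (lam k * z)) =
      fun z => ∑ k ∈ T, c k * lam k ^ i * Complex.exp (lam k * z) := by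
  induction i with
  | zero =>
    rw [iteratedDeriv_zero]
    funext z
    exact Finset.sum_congr rfl fun k _ => by rw [pow_zero, mul_one]
  | succ i ih =>
    rw [iteratedDeriv_succ, ih]
    funext z
    have h1 : HasDerivAt (fun z => ∑ k ∈ T, c k * lam k ^ i * Complex.exp (lam k * z))
        (∑ k ∈ T, c k * lam k ^ i * (Complex.exp (lam k * z) * lam k)) z := by
      apply HasDerivAt.fun_sum
      intro k _
      have h2 : HasDerivAt (fun z => lam k * z) (lam k) z := by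
        simpa using (hasDerivAt_id z).const_mul (lam k)
      exact h2.cexp.const_mul _
    rw [h1.deriv]
    exact Finset.sum_congr rfl fun k _ => by ring

/-- exponential sums satisfy linear differential equations with constant coefficients -/
theorem exp_ode (T : Finset ℕ) (c lam : ℕ → ℂ) :
    PolODE (fun z => ∑ k ∈ T, c k * Complex.exp (lam k * z)) := by
  classical
  let R : Polynomial ℂ := ∏ k ∈ T, (Polynomial.X - Polynomial.C (lam k))
  have hR : R ≠ 0 := Finset.prod_ne_zero_iff.2 fun k _ => Polynomial.X_sub_C_ne_zero _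
  refine ⟨R.natDegree, fun i => Polynomial.C (R.coeff i), ⟨R.natDegree, le_rfl, ?_⟩, fun z => ?_⟩
  · rw [Ne, Polynomial.C_eq_zero, Polynomial.coeff_natDegree, Polynomial.leadingCoeff_eq_zero]
    exact hR
  · simp only [Polynomial.eval_C]
    simp only [iter_exp, Finset.mul_sum]
    rw [Finset.sum_comm]
    refine Finset.sum_eq_zero fun k hk => ?_
    have h1 : ∑ i ∈ Finset.range (R.natDegree + 1),
        R.coeff i * (c k * lam k ^ i * Complex.exp (lam k * z)) =
        c k * Complex.exp (lam k * z) * R.eval (lam k) := by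
      rw [Polynomial.eval_eq_sum_range, Finset.mul_sum]
      exact Finset.sum_congr rfl fun i _ => by ring
    have h2 : R.eval (lam k) = 0 := by
      simp only [R]
      rw [Polynomial.eval_prod]
      exact Finset.prod_eq_zero hk (by simp)
    rw [h1, h2, mul_zero]

theorem dir_eq (M : ℕ) (a : ℕ → ℂ) : (fun z : ℂ => ∑ k ∈ Finset.Icc 1 M, a k * (k : ℂ) ^ z) =
    fun z => ∑ k ∈ Finset.Icc 1 M, a k * Complex.exp (Complex.log (k : ℂ) * z) := by
  funext z
  refine Finset.sum_congr rfl fun k hk => ?_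
  have h1 : (k : ℂ) ≠ 0 := Nat.cast_ne_zero.2 (by
    have := (Finset.mem_Icc.1 hk).1
    omega)
  rw [Complex.cpow_def_of_ne_zero h1]

theorem dir_diff (M : ℕ) (a : ℕ → ℂ) :
    Differentiable ℂ (fun z : ℂ => ∑ k ∈ Finset.Icc 1 M, a k * (k : ℂ) ^ z) := by
  rw [dir_eq]
  fun_prop

theorem dir_ode (M : ℕ) (a : ℕ → ℂ) :
    PolODE (fun z : ℂ => ∑ k ∈ Finset.Icc 1 M, a k * (k : ℂ) ^ z) := by
  rw [dir_eq]
  exact exp_ode _ _ _

/-- the parametrization of a unirational variety by polynomials -/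
theorem exists_param {N m : ℕ} {K : Type} [Field K] [Algebra ℂ K] {y : Fin (N + 1) → K}
    (hy : y ≠ 0) (φ : K →ₐ[ℂ] FractionRing (MvPolynomial (Fin m) ℂ)) :
    ∃ W : Fin (N + 1) → MvPolynomial (Fin m) ℂ, ∀ G : MvPolynomial (Fin (N + 1)) ℂ, IsForm G →
      (W602.GT.val y G = 0 ↔ aeval W G = 0) := by
  classical
  obtain ⟨i0, h0⟩ : ∃ i, y i ≠ 0 := Function.ne_iff.1 hy
  let FR := FractionRing (MvPolynomial (Fin m) ℂ)
  obtain ⟨b, hb⟩ := IsLocalization.exist_integer_multiples_of_finset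
    (nonZeroDivisors (MvPolynomial (Fin m) ℂ)) (Finset.univ.image fun j => φ (y j / y i0))
  have hb' : ∀ j, ∃ W : MvPolynomial (Fin m) ℂ, algebraMap _ FR W =
      algebraMap _ FR (b : MvPolynomial (Fin m) ℂ) * φ (y j / y i0) := by
    intro j
    obtain ⟨W, hW⟩ := hb _ (Finset.mem_image_of_mem _ (Finset.mem_univ j))
    refine ⟨W, ?_⟩
    rw [hW, Algebra.smul_def]
  choose W hW using hb'
  have hinj : Function.Injective (algebraMap (MvPolynomial (Fin m) ℂ) FR) :=
    IsFractionRing.injective _ _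
  have hb0 : algebraMap _ FR (b : MvPolynomial (Fin m) ℂ) ≠ 0 := by
    rw [Ne, map_eq_zero_iff _ hinj]
    exact nonZeroDivisors.ne_zero b.2
  refine ⟨W, fun G hG => ?_⟩
  obtain ⟨e, he⟩ := hG
  have h1 : algebraMap _ FR (aeval W G) = algebraMap _ FR (b : MvPolynomial (Fin m) ℂ) ^ e *
      φ (aeval (fun j => y j / y i0) G) := by
    have h2 := MvPolynomial.comp_aeval_apply (f := W)
      (IsScalarTower.toAlgHom ℂ (MvPolynomial (Fin m) ℂ) FR) G
    have h3 := MvPolynomial.comp_aeval_apply (f := fun j => y j / y i0) φ G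
    refine h2.trans ?_
    rw [h3]
    have h4 : (fun j => (IsScalarTower.toAlgHom ℂ (MvPolynomial (Fin m) ℂ) FR) (W j)) =
        fun j => algebraMap _ FR (b : MvPolynomial (Fin m) ℂ) * φ (y j / y i0) :=
      funext fun j => hW j
    rw [h4]
    rw [aeval_def, aeval_def, eval₂_eq', eval₂_eq', Finset.mul_sum]
    refine Finset.sum_congr rfl fun α hα => ?_
    have h5 : ∑ i, α i = e := by
      have := he (MvPolynomial.mem_support_iff.1 hα)
      rw [Finsupp.weight_apply, Finsupp.sum_fintype _ _ (fun _ => by simp)] at this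
      simpa using this
    rw [← h5, ← Finset.prod_pow_eq_pow_sum]
    simp only [mul_pow, Finset.prod_mul_distrib]
    ring
  rw [Pool.Agent.TH143.GT.val_scale h0 he]
  constructor
  · intro h2
    apply hinj
    rw [map_zero, h1]
    have h3 : aeval (fun j => y j / y i0) G = 0 :=
      (mul_eq_zero.1 h2).resolve_left (pow_ne_zero _ h0)
    rw [h3, map_zero, mul_zero]
  · intro h2
    rw [h2, map_zero] at h1
    have h3 := (mul_eq_zero.1 h1.symm).resolve_left (pow_ne_zero _ hb0)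
    rw [map_eq_zero] at h3
    rw [h3, mul_zero]

/-- `K` embeds into a field of rational functions. -/
def Unirational (K : Type) [Field K] [Algebra ℂ K] : Prop :=
  ∃ m : ℕ, Nonempty (K →ₐ[ℂ] FractionRing (MvPolynomial (Fin m) ℂ))

/-- the curve `f` lies over `Ω` in the projective variety with the ideal `p` -/
def InVar {N : ℕ} (p : Ideal (MvPolynomial (Fin (N + 1)) ℂ)) (Ω : Set ℂ)
    (f : ℂ → Fin (N + 1) → ℂ) : Prop :=
  ∀ z ∈ Ω, ∀ H ∈ p, IsForm H → eval (f z) H = 0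

/-- the curve whose homogeneous coordinates are Dirichlet polynomials -/
noncomputable def dirCurve {N : ℕ} (M : ℕ) (a : Fin (N + 1) → ℕ → ℂ) (z : ℂ) : Fin (N + 1) → ℂ :=
  fun j => ∑ k ∈ Finset.Icc 1 M, a j k * (k : ℂ) ^ z

theorem genPt_of {N : ℕ} {p : Ideal (MvPolynomial (Fin (N + 1)) ℂ)} {K : Type} [Field K]
    [Algebra ℂ K] {w : ℕ} {y : Fin (N + 1) → K} (hy : FunField p 1 K w y) {Ω : Set ℂ}
    {f : ℂ → Fin (N + 1) → ℂ} (hX : InVar p Ω f)
    (hd : ∀ G : MvPolynomial (Fin (N + 1)) ℂ, IsForm G → (∀ z ∈ Ω, eval (f z) G = 0) → G ∈ p) :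
    GenPt f Ω K w y := by
  refine ⟨hy.sub.ne, hy.sub.gen, hy.sub.dim, fun G hG => ⟨fun h0 z hz => ?_, fun h0 => ?_⟩⟩
  · exact hX z hz G (hy.mem G hG h0) hG
  · exact hy.sub.mem G (hd G hG h0)

/-- density over a ring with a nonzero constant gives density -/
theorem DenseOver.zdense {N : ℕ} {p : Ideal (MvPolynomial (Fin (N + 1)) ℂ)} {Ω : Set ℂ}
    (hne : Ω.Nonempty) {B : Subalgebra ℂ (ℂ → ℂ)} {f : ℂ → Fin (N + 1) → ℂ}
    (h : DenseOver Ω B (fun G => G ∈ p) f) (G : MvPolynomial (Fin (N + 1)) ℂ) (hG : IsForm G)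
    (h0 : ∀ z ∈ Ω, eval (f z) G = 0) : G ∈ p := by
  obtain ⟨e, he⟩ := hG
  refine h 1 (fun _ => 1) (fun _ => B.one_mem) ?_ e (fun _ => G) (fun _ => he) (fun z hz => ?_) 0
  · intro c hc
    obtain ⟨z, hz⟩ := hne
    have h1 := hc z hz
    rw [Fin.sum_univ_one] at h1
    have h2 : c 0 * 1 = 0 := h1
    rw [mul_one] at h2
    funext i
    rw [Subsingleton.elim i 0, h2, Pi.zero_apply]
  · rw [Fin.sum_univ_one, h0 z hz, mul_zero]

/-- **Unirationality in terms of curves.** -/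
theorem uni_tfae {N : ℕ} {p : Ideal (MvPolynomial (Fin (N + 1)) ℂ)} {K : Type} [Field K]
    [Algebra ℂ K] {w : ℕ} {y : Fin (N + 1) → K} (hy : FunField p 1 K w y) :
    List.TFAE [Unirational K,
      Nonempty (K →ₐ[ℂ] FractionRing (MvPolynomial (Fin w) ℂ)),
      ∃ (M : ℕ) (a : Fin (N + 1) → ℕ → ℂ), InVar p univ (dirCurve M a) ∧
        GraphDense p univ (dirCurve M a),
      ∃ f : ℂ → Fin (N + 1) → ℂ, (∀ j, Differentiable ℂ (fun z => f z j)) ∧
        (∀ j, PolODE (fun z => f z j)) ∧ InVar p univ f ∧ GraphDense p univ f,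
      ∃ (Ω : Set ℂ) (f : ℂ → Fin (N + 1) → ℂ), IsOpen Ω ∧ IsPreconnected Ω ∧ Ω.Nonempty ∧
        (∀ j, AnalyticOnNhd ℂ (fun z => f z j) Ω) ∧
        (∀ j, LinOver Ω Pool.Agent.TH8.QD.polS (fun z => f z j)) ∧ InVar p Ω f ∧
        GraphDense p Ω f,
      ∃ (Ω : Set ℂ) (B : Subalgebra ℂ (ℂ → ℂ)) (f : ℂ → Fin (N + 1) → ℂ), IsOpen Ω ∧
        IsPreconnected Ω ∧ Ω.Nonempty ∧ DiffRing Ω B ∧ (∀ j, AnalyticOnNhd ℂ (fun z => f z j) Ω) ∧
        (∀ j, LinOver Ω B (fun z => f z j)) ∧ InVar p Ω f ∧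
        DenseOver Ω B (fun G => G ∈ p) f] := by
  tfae_have 1 → 3 := by
    rintro ⟨m, ⟨φ⟩⟩
    obtain ⟨W, hW⟩ := exists_param hy.sub.ne φ
    obtain ⟨M, a, ha⟩ := eval_dirichlet W
    have hval : ∀ (z : ℂ) (G : MvPolynomial (Fin (N + 1)) ℂ), eval (dirCurve M a z) G =
        eval (fun l : Fin m => ((Nat.nth Nat.Prime l : ℕ) : ℂ) ^ z) (aeval W G) := by
      intro z G
      have h1 : dirCurve M a z = fun j =>
          eval (fun l : Fin m => ((Nat.nth Nat.Prime l : ℕ) : ℂ) ^ z) (W j) := by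
        funext j
        rw [ha]
        rfl
      have h2 := MvPolynomial.comp_aeval_apply (f := W)
        (aeval (fun l : Fin m => ((Nat.nth Nat.Prime l : ℕ) : ℂ) ^ z) :
          MvPolynomial (Fin m) ℂ →ₐ[ℂ] ℂ) G
      rw [h1, ← MvPolynomial.aeval_eq_eval, ← MvPolynomial.aeval_eq_eval]
      exact h2.symm
    refine ⟨M, a, fun z _ H hH hHf => ?_, fun q e G hG hz k => ?_⟩
    · rw [hval, (hW H hHf).1 (hy.sub.mem H hH), map_zero]
    · have h1 := num_indep (fun k => aeval W (G k)) (fun z => by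
        have h2 := hz z (mem_univ _)
        simp only [hval] at h2
        exact h2) k
      exact hy.mem _ ⟨e, hG k⟩ ((hW _ ⟨e, hG k⟩).2 h1)
  tfae_have 3 → 4 := by
    rintro ⟨M, a, h1, h2⟩
    exact ⟨dirCurve M a, fun j => dir_diff M (a j), fun j => dir_ode M (a j), h1, h2⟩
  tfae_have 4 → 5 := by
    rintro ⟨f, h1, h2, h3, h4⟩
    exact ⟨univ, f, isOpen_univ, isPreconnected_univ, univ_nonempty,
      fun j z _ => (h1 j).analyticAt z, fun j => Pool.Agent.TH8.TEN.linOver_of_pol (h2 j), h3, h4⟩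
  tfae_have 5 → 6 := by
    rintro ⟨Ω, f, h1, h2, h3, h4, h5, h6, h7⟩
    have h8 := Pool.Agent.TH8.TEN.polS_diff
    exact ⟨Ω, Pool.Agent.TH8.QD.polS, f, h1, h2, h3,
      ⟨fun b hb z _ => h8.an b hb z (mem_univ z), fun b hb => by
        obtain ⟨b', hb', h9⟩ := h8.der b hb
        exact ⟨b', hb', fun z _ => h9 z (mem_univ z)⟩⟩, h4, h5, h6, h7.denseOver⟩
  tfae_have 6 → 2 := by
    rintro ⟨Ω, B, f, h1, h2, h3, h4, h5, h6, h7, h8⟩
    refine uni_gen h1 h2 h3 h4 f h5 h6 (genPt_of hy h7 fun G hG h0 => h8.zdense h3 G hG h0) ?_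
    intro q b hb hind e G hG hz i
    exact hy.sub.mem _ (h8 q b hb hind e G hG hz i)
  tfae_have 2 → 1 := fun h => ⟨w, h⟩
  tfae_finish

end Pool.Agent.TH8.UNI
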