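import Pool.Agent.TH8.UNI.Spread
import Pool.Agent.TH8.TEN.Asm
import Pool.Agent.TH8.TEN.Special

/-!
Special varieties and potential density.
-/

set_option autoImplicit false

open MvPolynomial Set Pool.Agent.TH143 Pool.Agent.TH143.GT Pool.Agent.W602.GT

namespace Pool.Agent.TH8.UNI

/-- a holomorphic curve over `Ω` in the projective variety with the ideal `p`, given by linear
differential equations, either with polynomial coefficients, and with a Zariski-dense graph, or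
over a differential ring `B` of holomorphic functions, and Zariski-dense over `B` -/
def LinearCurve {N : ℕ} (p : Ideal (MvPolynomial (Fin (N + 1)) ℂ)) (Ω : Set ℂ)
    (f : ℂ → Fin (N + 1) → ℂ) : Prop :=
  (∀ j, AnalyticOnNhd ℂ (fun z => f z j) Ω) ∧ InVar p Ω f ∧
    (((∀ j, LinOver Ω Pool.Agent.TH8.QD.polS (fun z => f z j)) ∧ GraphDense p Ω f) ∨
      ∃ B : Subalgebra ℂ (ℂ → ℂ), DiffRing Ω B ∧ (∀ j, LinOver Ω B (fun z => f z j)) ∧
        DenseOver Ω B (fun G => G ∈ p) f)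

theorem LinearCurve.uni {N : ℕ} {p : Ideal (MvPolynomial (Fin (N + 1)) ℂ)} {Ω : Set ℂ}
    (hΩ : IsOpen Ω) (hΩc : IsPreconnected Ω) (hne : Ω.Nonempty) {f : ℂ → Fin (N + 1) → ℂ}
    (hf : LinearCurve p Ω f) {K : Type} [Field K] [Algebra ℂ K] {w : ℕ} {y : Fin (N + 1) → K}
    (hy : FunField p 1 K w y) : Unirational K := by
  obtain ⟨h1, h2, h3 | ⟨B, h3, h4, h5⟩⟩ := hf
  · have h6 := ((uni_tfae hy).out 4 0).1
    exact h6 ⟨Ω, f, hΩ, hΩc, hne, h1, h3.1, h2, h3.2⟩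
  · have h6 := ((uni_tfae hy).out 5 0).1
    exact h6 ⟨Ω, B, f, hΩ, hΩc, hne, h3, h1, h4, h2, h5⟩

theorem special_of_uni {N : ℕ} {p : Ideal (MvPolynomial (Fin (N + 1)) ℂ)} {K : Type} [Field K]
    [Algebra ℂ K] {w : ℕ} {y : Fin (N + 1) → K} (hy : FunField p 1 K w y) (h : Unirational K) :
    (∀ q : ℕ, 0 < q → ∀ θ : MultilinearMap K (fun _ : Fin q => Derivation ℂ K K) K,
      Pool.Agent.TH8.TEN.HolTensor w θ → θ = 0) ∧ Pool.Agent.TH8.TEN.Special K w := by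
  obtain ⟨f, h1, h2, h3, h4⟩ := ((uni_tfae hy).out 0 3).1 h
  have h5 : ∀ q : ℕ, 0 < q → ∀ θ : MultilinearMap K (fun _ : Fin q => Derivation ℂ K K) K,
      Pool.Agent.TH8.TEN.HolTensor w θ → θ = 0 := fun q hq θ hθ =>
    Pool.Agent.TH8.TEN.tensor_vanish (genPt_of hy h3 fun G hG h0 =>
      h4.denseOver.zdense univ_nonempty G hG h0) h1 h2 hq hθ
  exact ⟨h5, Pool.Agent.TH8.TEN.special_of_tensor h5⟩

end Pool.Agent.TH8.UNI
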