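import Mathlib

/-!
Products of lists of matrices.
-/

set_option autoImplicit false

namespace Pool.Agent.TH8.UNI

theorem prod_ones {M : Type} [Monoid M] {r : ℕ} {g : Fin r → M} (h : ∀ j, g j = 1) :
    (List.ofFn g).prod = 1 := by
  apply List.prod_eq_one
  intro x hx
  obtain ⟨i, rfl⟩ := (List.mem_ofFn' _ _).1 hx
  exact h i

theorem prod_single {M : Type} [Monoid M] {r : ℕ} {g : Fin r → M} (i : Fin r)
    (h : ∀ j, j ≠ i → g j = 1) : (List.ofFn g).prod = g i := by
  induction r with
  | zero => exact i.elim0
  | succ r ih =>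
    rw [List.ofFn_succ, List.prod_cons]
    induction i using Fin.cases with
    | zero =>
      rw [prod_ones fun j => h _ (Fin.succ_ne_zero j), mul_one]
    | succ i =>
      rw [h 0 (Fin.succ_ne_zero i).symm, one_mul, ih i fun j hj => h _ fun e => hj (Fin.succ_injective _ e)]

theorem prod_smul {R M : Type} [CommSemiring R] [Semiring M] [Algebra R M] {r : ℕ}
    (a : Fin r → R) (g : Fin r → M) :
    (List.ofFn fun i => a i • g i).prod = (∏ i, a i) • (List.ofFn g).prod := by
  induction r with
  | zero => simp
  | succ r ih =>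
    rw [List.ofFn_succ, List.prod_cons, ih, Fin.prod_univ_succ, List.ofFn_succ, List.prod_cons,
      smul_mul_smul_comm]

theorem prod_map {M M' : Type} [Semiring M] [Semiring M'] (f : M →+* M') {r : ℕ} (g : Fin r → M) :
    f (List.ofFn g).prod = (List.ofFn fun i => f (g i)).prod := by
  rw [map_list_prod, List.map_ofFn]
  rfl

theorem prod_ind {M : Type} [Monoid M] (p : M → Prop) (h1 : p 1) (hm : ∀ a b, p a → p b → p (a * b))
    {r : ℕ} {g : Fin r → M} (h : ∀ i, p (g i)) : p (List.ofFn g).prod := by
  induction r with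
  | zero => simpa using h1
  | succ r ih =>
    rw [List.ofFn_succ, List.prod_cons]
    exact hm _ _ (h 0) (ih fun i => h i.succ)

end Pool.Agent.TH8.UNI
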