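import Pool.Agent.TH8.UNI.One
import Pool.Agent.TH8.UNI.Prod

/-!
Families with many parameters.
-/

set_option autoImplicit false

namespace Pool.Agent.TH8.UNI

open MvPolynomial Metric Set Filter Topology Pool.Agent.TH143 Pool.Agent.TH143.GT

variable {S : Set ℂ} {ι : Type} {n : ℕ}

/-- a one-parameter family of symmetries -/
structure OneP (b : ι → ℂ → ℂ) (U : ℂ → Matrix (Fin n) (Fin n) ℂ) (S : Set ℂ)
    (E : ℂ → Matrix (Fin n) (Fin n) ℂ) (η : Matrix (Fin n) (Fin n) ℂ) (m : ℕ)
    (p : Fin n → Fin n → Polynomial ℂ) : Prop where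
  one : E 1 = 1
  laur : ∀ x, x ≠ 0 → ∀ k l, x ^ m * E x k l = (p k l).eval x
  der : ∀ k l, HasDerivAt (fun x => E x k l) (η k l) 1
  gal : ∀ x, x ≠ 0 → Gal b U S (E x)

/-- the direction given by a matrix -/
noncomputable def dir (V : ι ⊕ (Fin n × Fin n) → Hol S) {w : ℕ}
    (G0 G1 : Fin w → MvPolynomial (ι ⊕ (Fin n × Fin n)) ℂ) (η : Matrix (Fin n) (Fin n) ℂ)
    (l : Fin w) : Hol S :=
  aeval V (mkDerivation ℂ (WW η) (G1 l)) * aeval V (G0 l) -
    aeval V (G1 l) * aeval V (mkDerivation ℂ (WW η) (G0 l))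

/-- **Families of symmetries in all directions.** -/
theorem all_dirs (hS : IsOpen S) (hSc : IsPreconnected S) (hne : S.Nonempty)
    {K : Type} [Field K] [Algebra (Hol S) K] [IsFractionRing (Hol S) K]
    (b : ι → ℂ → ℂ) (hb : ∀ i, AnalyticOnNhd ℂ (b i) S) (d : ι → ι)
    (hd : ∀ i, ∀ z ∈ S, HasDerivAt (b i) (b (d i) z) z)
    (A : Fin n → Fin n → ι) (U : ℂ → Matrix (Fin n) (Fin n) ℂ)
    (hU : ∀ z ∈ S, ∀ i j, HasDerivAt (fun w => U w i j) (∑ k, b (A i k) z * U z k j) z)
    (hdet : ∀ z ∈ S, (U z).det ≠ 0)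
    (B : Subalgebra ℂ (Hol S)) (hB : ∀ i, toHol (b i) (hb i) ∈ B)
    (V : ι ⊕ (Fin n × Fin n) → Hol S) (hV : ∀ (z : S) l, evz z (V l) = vv b U z l)
    {w : ℕ} (D : Fin w → K → K) (hDadd : ∀ i x y, D i (x + y) = D i x + D i y)
    (hDmul : ∀ i x y, D i (x * y) = x * D i y + y * D i x)
    (hDB : ∀ i, ∀ x ∈ B, D i (algebraMap (Hol S) K x) = 0)
    (G0 G1 : Fin w → MvPolynomial (ι ⊕ (Fin n × Fin n)) ℂ) (u : Fin w → K) (hu : ∀ l, u l ≠ 0)
    (hG : ∀ i j, D i (algebraMap (Hol S) K (aeval V (G1 j))) *
        algebraMap (Hol S) K (aeval V (G0 j)) - algebraMap (Hol S) K (aeval V (G1 j)) *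
        D i (algebraMap (Hol S) K (aeval V (G0 j))) = if i = j then u j else 0) :
    ∃ (E : Fin w → ℂ → Matrix (Fin n) (Fin n) ℂ) (η : Fin w → Matrix (Fin n) (Fin n) ℂ)
      (m : Fin w → ℕ) (p : Fin w → Fin n → Fin n → Polynomial ℂ),
      (∀ i, OneP b U S (E i) (η i) (m i) (p i)) ∧
      (Matrix.of fun i l => dir V G0 G1 (η i) l).det ≠ 0 := by
  classical
  have hdom : IsDomain (Hol S) := hol_domain hSc hne
  have key : ∀ r : ℕ, r ≤ w → ∃ (E : Fin r → ℂ → Matrix (Fin n) (Fin n) ℂ)
      (η : Fin r → Matrix (Fin n) (Fin n) ℂ) (m : Fin r → ℕ)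
      (p : Fin r → Fin n → Fin n → Polynomial ℂ),
      (∀ i, OneP b U S (E i) (η i) (m i) (p i)) ∧
      LinearIndependent K (fun (i : Fin r) (l : Fin w) =>
        algebraMap (Hol S) K (dir V G0 G1 (η i) l)) := by
    intro r
    induction r with
    | zero =>
      intro _
      exact ⟨fun i => i.elim0, fun i => i.elim0, fun i => i.elim0, fun i => i.elim0,
        fun i => i.elim0, linearIndependent_empty_type⟩
    | succ r ih =>
      intro hr
      obtain ⟨E, η, m, p, h1, h2⟩ := ih (by omega)
      set v : Fin r → Fin w → K := fun i l => algebraMap (Hol S) K (dir V G0 G1 (η i) l) with hv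
      have hlt : Submodule.span K (Set.range v) < ⊤ := by
        rw [lt_top_iff_ne_top]
        intro h
        have h3 := finrank_span_eq_card h2
        rw [h, finrank_top, Module.finrank_fin_fun, Fintype.card_fin] at h3
        omega
      obtain ⟨φ, hφ0, hφ⟩ := Submodule.exists_le_ker_of_lt_top _ hlt
      obtain ⟨s, hs⟩ := IsLocalization.exist_integer_multiples_of_finset (nonZeroDivisors (Hol S))
        (Finset.univ.image (fun l : Fin w => φ (Pi.single l 1)))
      have hs' : ∀ l : Fin w, ∃ h : Hol S, algebraMap (Hol S) K h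
          = algebraMap (Hol S) K s * φ (Pi.single l 1) := by
        intro l
        obtain ⟨h, hh⟩ := hs _ (Finset.mem_image_of_mem _ (Finset.mem_univ l))
        refine ⟨h, ?_⟩
        rw [hh, Algebra.smul_def]
      choose c hc using hs'
      have hs0 : algebraMap (Hol S) K s ≠ 0 := by
        intro h0
        exact nonZeroDivisors.ne_zero s.2 (IsFractionRing.injective (Hol S) K (by rw [h0, map_zero]))
      have hφe : ∀ x : Fin w → K, algebraMap (Hol S) K s * φ x =
          ∑ l, algebraMap (Hol S) K (c l) * x l := by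
        intro x
        have h3 : x = ∑ l, x l • (Pi.single l 1 : Fin w → K) := by
          funext l
          rw [Finset.sum_apply, Finset.sum_eq_single l]
          · simp
          · intro j _ hj
            simp [Ne.symm hj]
          · intro h
            exact absurd (Finset.mem_univ _) h
        conv_lhs => rw [h3]
        rw [map_sum, Finset.mul_sum]
        refine Finset.sum_congr rfl fun l _ => ?_
        rw [map_smul, smul_eq_mul, hc]
        ring
      obtain ⟨l0, hl0⟩ : ∃ l, algebraMap (Hol S) K (c l) ≠ 0 := by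
        by_contra hcon
        push Not at hcon
        apply hφ0
        apply LinearMap.ext
        intro x
        have h3 := hφe x
        rw [Finset.sum_eq_zero fun l _ => by rw [hcon, zero_mul]] at h3
        exact (mul_eq_zero.1 h3).resolve_left hs0
      obtain ⟨E', η', m', p', e1, e2, e3, e4, e5⟩ := one_param hS hSc hne b hb d hd A U hU hdet B
        hB V hV (D l0) (hDadd l0) (hDmul l0) (hDB l0) c G0 G1 (by
          simp only [hG, mul_ite, mul_zero]
          rw [Finset.sum_ite_eq, if_pos (Finset.mem_univ _)]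
          exact mul_ne_zero hl0 (hu l0))
      refine ⟨Fin.cons E' E, Fin.cons η' η, Fin.cons m' m, Fin.cons p' p, fun i => ?_, ?_⟩
      · induction i using Fin.cases with
        | zero => exact ⟨e1, e2, e3, e4⟩
        | succ i => exact h1 i
      · have h3 : (fun (i : Fin (r + 1)) (l : Fin w) => algebraMap (Hol S) K
            (dir V G0 G1 ((Fin.cons η' η : Fin (r + 1) → Matrix (Fin n) (Fin n) ℂ) i) l)) =
            Fin.cons (fun l => algebraMap (Hol S) K (dir V G0 G1 η' l)) v := by
          funext i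
          induction i using Fin.cases with
          | zero => rfl
          | succ i => rfl
        rw [h3, linearIndependent_finCons]
        refine ⟨h2, fun hmem => ?_⟩
        have h4 := hφ hmem
        rw [LinearMap.mem_ker] at h4
        have h5 := hφe fun l => algebraMap (Hol S) K (dir V G0 G1 η' l)
        rw [h4, mul_zero] at h5
        apply e5
        apply IsFractionRing.injective (Hol S) K
        rw [map_zero, map_sum, h5]
        exact Finset.sum_congr rfl fun l _ => map_mul _ _ _
  obtain ⟨E, η, m, p, h1, h2⟩ := key w le_rfl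
  refine ⟨E, η, m, p, h1, ?_⟩
  intro h0
  have h3 : (Matrix.of fun i l => algebraMap (Hol S) K (dir V G0 G1 (η i) l)).det = 0 := by
    have h4 := congrArg (algebraMap (Hol S) K) h0
    rw [map_zero, RingHom.map_det] at h4
    exact h4
  have h4 : IsUnit (Matrix.of fun i l => algebraMap (Hol S) K (dir V G0 G1 (η i) l)) :=
    Matrix.linearIndependent_rows_iff_isUnit.1 h2
  rw [Matrix.isUnit_iff_isUnit_det, h3] at h4
  exact not_isUnit_zero h4

/-- the derivative in the direction of a coordinate -/
theorem pderiv_eval {w : ℕ} (Q : MvPolynomial (Fin w) ℂ) (i : Fin w) :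
    HasDerivAt (fun t => eval (Function.update (fun _ => 1) i t) Q)
      (eval (fun _ => 1) (pderiv i Q)) 1 := by
  classical
  have h1 := Pool.Agent.H159R3.Exp.hasDerivAt_eval
    (fun t => (Function.update (fun _ => (1 : ℂ)) i t : Fin w → ℂ)) (Pi.single i 1) 1 (by
      intro l
      by_cases hl : l = i
      · subst hl
        simp only [Function.update_self, Pi.single_eq_same]
        exact hasDerivAt_id' 1
      · simp only [Function.update_of_ne hl, Pi.single_eq_of_ne hl]
        exact hasDerivAt_const _ _) Q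
  refine h1.congr_deriv ?_
  rw [Finset.sum_eq_single i]
  · rw [Pi.single_eq_same, mul_one, Function.update_eq_self]
  · intro j _ hj
    rw [Pi.single_eq_of_ne hj, mul_zero]
  · intro h
    exact absurd (Finset.mem_univ _) h

/-- a polynomial which vanishes at the points without zero coordinates vanishes -/
theorem zero_of_units {w : ℕ} {Q : MvPolynomial (Fin w) ℂ}
    (h : ∀ x : Fin w → ℂ, (∀ i, x i ≠ 0) → eval x Q = 0) : Q = 0 := by
  classical
  have h1 : (∏ i, X i) * Q = 0 := by
    apply MvPolynomial.funext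
    intro x
    rw [map_mul, map_prod, map_zero]
    by_cases hx : ∀ i, x i ≠ 0
    · rw [h x hx, mul_zero]
    · push Not at hx
      obtain ⟨i, hi⟩ := hx
      rw [Finset.prod_eq_zero (Finset.mem_univ i) (by rw [eval_X]; exact hi), zero_mul]
  refine (mul_eq_zero.1 h1).resolve_left ?_
  rw [Finset.prod_eq_zero_iff]
  rintro ⟨i, -, hi⟩
  exact X_ne_zero i hi

/-- **The family with many parameters.** -/
theorem multi_family {N w : ℕ} (b : ι → ℂ → ℂ) (U : ℂ → Matrix (Fin n) (Fin n) ℂ)
    (V : ι ⊕ (Fin n × Fin n) → Hol S) (hV : ∀ (z : S) l, evz z (V l) = vv b U z l)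
    (E : Fin w → ℂ → Matrix (Fin n) (Fin n) ℂ) (η : Fin w → Matrix (Fin n) (Fin n) ℂ)
    (m : Fin w → ℕ) (p : Fin w → Fin n → Fin n → Polynomial ℂ)
    (hE : ∀ i, OneP b U S (E i) (η i) (m i) (p i)) (L : Fin (N + 1) → Fin n → Fin n → ℂ)
    (a : S) :
    ∃ W : Fin (N + 1) → MvPolynomial (Fin w) ℂ,
      (∀ R : MvPolynomial (Fin (N + 1)) ℂ, (∃ d, R.IsHomogeneous d) →
        (∀ z ∈ S, eval (fun j => ∑ k, ∑ l, L j k l * U z k l) R = 0) → aeval W R = 0) ∧
      (∀ j, eval (fun _ => 1) (W j) = ∑ k, ∑ l, L j k l * U a k l) ∧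
      ∀ (i : Fin w) (g1 g0 : MvPolynomial (Fin (N + 1)) ℂ) (e : ℕ), g1.IsHomogeneous e →
        g0.IsHomogeneous e →
        eval (fun _ => 1) (pderiv i (aeval W g1) * aeval W g0 - aeval W g1 * pderiv i (aeval W g0)) =
        evz a (aeval V (mkDerivation ℂ (WW (η i)) (bind₁ (fun j => ∑ k, ∑ l, C (L j k l) *
            X (Sum.inr (k, l))) g1)) * aeval V (bind₁ (fun j => ∑ k, ∑ l, C (L j k l) *
            X (Sum.inr (k, l))) g0) -
          aeval V (bind₁ (fun j => ∑ k, ∑ l, C (L j k l) * X (Sum.inr (k, l))) g1) *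
            aeval V (mkDerivation ℂ (WW (η i)) (bind₁ (fun j => ∑ k, ∑ l, C (L j k l) *
            X (Sum.inr (k, l))) g0))) := by
  classical
  set Φ : Fin (N + 1) → MvPolynomial (ι ⊕ (Fin n × Fin n)) ℂ := fun j =>
    ∑ k, ∑ l, C (L j k l) * X (Sum.inr (k, l)) with hΦ
  have hΦe : ∀ (U' : ℂ → Matrix (Fin n) (Fin n) ℂ) (z : ℂ) (j : Fin (N + 1)),
      eval (vv b U' z) (Φ j) = ∑ k, ∑ l, L j k l * U' z k l := by
    intro U' z j
    simp only [hΦ, map_sum, map_mul, eval_C, eval_X, vv, Sum.elim_inr]
  have hqe' : ∀ (R : MvPolynomial (Fin (N + 1)) ℂ) (x : ι ⊕ (Fin n × Fin n) → ℂ),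
      eval x (bind₁ Φ R) = eval (fun j => eval x (Φ j)) R := by
    intro R x
    rw [eval, eval₂Hom_bind₁]
    rfl
  have hVe : ∀ (z : S), (fun l => evz z (V l)) = vv b U z := fun z => funext fun l => hV z l
  have hVP : ∀ (z : S) (P : MvPolynomial (ι ⊕ (Fin n × Fin n)) ℂ),
      evz z (aeval V P) = eval (vv b U z) P := by
    intro z P
    have h4 := MvPolynomial.comp_aeval_apply (f := V) (evz z) P
    rw [h4, ← MvPolynomial.aeval_eq_eval, hVe]
  -- the product of the families
  let Mp : Fin w → Matrix (Fin n) (Fin n) (MvPolynomial (Fin w) ℂ) := fun i =>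
    Matrix.of fun k l => Polynomial.aeval (X i : MvPolynomial (Fin w) ℂ) (p i k l)
  let PM := (List.ofFn Mp).prod
  let Eb : (Fin w → ℂ) → Matrix (Fin n) (Fin n) ℂ := fun x => (List.ofFn fun i => E i (x i)).prod
  have hPM : ∀ x : Fin w → ℂ, (∀ i, x i ≠ 0) → PM.map (eval x) =
      (∏ i, x i ^ m i) • Eb x := by
    intro x hx
    have h1 : PM.map (eval x) = (List.ofFn fun i => (Mp i).map (eval x)).prod :=
      prod_map ((eval x).mapMatrix : Matrix (Fin n) (Fin n) (MvPolynomial (Fin w) ℂ) →+* _) Mp
    rw [h1, ← prod_smul]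
    congr 2
    funext i
    ext k l
    rw [Matrix.map_apply, Matrix.smul_apply, smul_eq_mul, (hE i).laur (x i) (hx i)]
    simp only [Mp, Matrix.of_apply]
    rw [Polynomial.aeval_def, Polynomial.hom_eval₂, eval_X, Polynomial.eval₂_eq_eval_map]
    congr 1
    conv_rhs => rw [← Polynomial.map_id (p := p i k l)]
    congr 1
    ext c
    simp
  have hEb : ∀ x : Fin w → ℂ, (∀ i, x i ≠ 0) → Gal b U S (Eb x) := by
    intro x hx
    exact prod_ind (Gal b U S) Gal.one (fun _ _ h1 h2 => h1.mul h2) fun i => (hE i).gal _ (hx i)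
  have hEb1 : Eb (fun _ => 1) = 1 := prod_ones fun i => (hE i).one
  have hEbu : ∀ i t, Eb (Function.update (fun _ => 1) i t) = E i t := by
    intro i t
    have h1 := prod_single (g := fun j => E j (Function.update (fun _ => (1 : ℂ)) i t j)) i (by
      intro j hj
      rw [Function.update_of_ne hj]
      exact (hE j).one)
    simp only [Eb]
    rw [h1, Function.update_self]
  let W : Fin (N + 1) → MvPolynomial (Fin w) ℂ := fun j =>
    ∑ k, ∑ l, C (L j k l) * ∑ k', C (U a k k') * PM k' l
  have hW : ∀ x : Fin w → ℂ, (∀ i, x i ≠ 0) → ∀ j, eval x (W j) =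
      (∏ i, x i ^ m i) * eval (vv b (fun z => U z * Eb x) a) (Φ j) := by
    intro x hx j
    rw [hΦe]
    simp only [W, map_sum, map_mul, eval_C, Finset.mul_sum, Matrix.mul_apply]
    refine Finset.sum_congr rfl fun k _ => Finset.sum_congr rfl fun l _ =>
      Finset.sum_congr rfl fun k' _ => ?_
    have h1 : eval x (PM k' l) = (∏ i, x i ^ m i) * Eb x k' l := by
      have := congrFun (congrFun (hPM x hx) k') l
      rw [Matrix.map_apply, Matrix.smul_apply, smul_eq_mul] at this
      exact this
    rw [h1]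
    ring
  have hWR : ∀ (R : MvPolynomial (Fin (N + 1)) ℂ) (dR : ℕ), R.IsHomogeneous dR →
      ∀ x : Fin w → ℂ, (∀ i, x i ≠ 0) → eval x (aeval W R) =
        (∏ i, x i ^ m i) ^ dR * eval (vv b (fun z => U z * Eb x) a) (bind₁ Φ R) := by
    intro R dR hR x hx
    rw [hqe', ← eval_smul_homog hR]
    have h4 := MvPolynomial.comp_aeval_apply (f := W) (aeval x : MvPolynomial (Fin w) ℂ →ₐ[ℂ] ℂ) R
    rw [← MvPolynomial.aeval_eq_eval, ← MvPolynomial.aeval_eq_eval]
    refine Eq.trans h4 ?_
    congr 2
    funext j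
    exact hW x hx j
  refine ⟨W, ?_, ?_, ?_⟩
  · rintro R ⟨dR, hR⟩ hRz
    apply zero_of_units
    intro x hx
    rw [hWR R dR hR x hx]
    have h1 : Rel (vv b U) S (bind₁ Φ R) := by
      intro z hz
      rw [hqe']
      have := hRz z hz
      simp only [hΦe]
      exact this
    rw [hEb x hx _ h1 a a.2, mul_zero]
  · intro j
    rw [hW (fun _ => 1) (fun _ => one_ne_zero) j, hEb1]
    simp only [Matrix.mul_one, one_pow, Finset.prod_const_one, one_mul]
    exact hΦe U a j
  · intro i g1 g0 e hg1 hg0
    have hval : ∀ (R : MvPolynomial (Fin (N + 1)) ℂ) (dR : ℕ), R.IsHomogeneous dR →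
        eval (fun _ => 1) (aeval W R) = eval (vv b U a) (bind₁ Φ R) := by
      intro R dR hR
      rw [hWR R dR hR (fun _ => 1) (fun _ => one_ne_zero), hEb1]
      simp only [Matrix.mul_one, one_pow, Finset.prod_const_one, one_mul]
    have hder : ∀ (R : MvPolynomial (Fin (N + 1)) ℂ) (dR : ℕ), R.IsHomogeneous dR →
        eval (fun _ => 1) (pderiv i (aeval W R)) = (m i * dR : ℕ) * eval (vv b U a) (bind₁ Φ R) +
          eval (vv b U a) (mkDerivation ℂ (WW (η i)) (bind₁ Φ R)) := by
      intro R dR hR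
      have h1 := pderiv_eval (aeval W R) i
      have h2 : (fun t => eval (Function.update (fun _ => 1) i t) (aeval W R)) =ᶠ[𝓝 1]
          fun t => t ^ (m i * dR) * eval (vv b (fun z => U z * E i t) a) (bind₁ Φ R) := by
        filter_upwards [isOpen_ne.mem_nhds (one_ne_zero (α := ℂ))] with t ht
        have hx : ∀ j, Function.update (fun _ => (1 : ℂ)) i t j ≠ 0 := by
          intro j
          by_cases hj : j = i
          · subst hj
            rw [Function.update_self]
            exact ht
          · rw [Function.update_of_ne hj]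
            exact one_ne_zero
        rw [hWR R dR hR _ hx, hEbu, pow_mul]
        congr 2
        rw [Finset.prod_eq_single i]
        · rw [Function.update_self]
        · intro j _ hj
          rw [Function.update_of_ne hj, one_pow]
        · intro h
          exact absurd (Finset.mem_univ _) h
      have h3 : vv b (fun z => U z * E i 1) a = vv b U a := by
        simp only [(hE i).one, Matrix.mul_one]
      have h4 := hasDerivAt_sol (WW (η i)) (fun x => vv b (fun z => U z * E i x) a) 1 (by
        intro l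
        rw [h3]
        rcases l with i' | ⟨i', j⟩
        · simp only [vv, Sum.elim_inl, WW, map_zero]
          exact hasDerivAt_const _ _
        · simp only [vv, Sum.elim_inr, WW, map_sum, map_mul, eval_X, eval_C, Matrix.mul_apply]
          apply HasDerivAt.fun_sum
          intro k _
          exact ((hE i).der k j).const_mul (U a i' k)) (bind₁ Φ R)
      rw [h3] at h4
      have h5 := (hasDerivAt_pow (m i * dR) (1 : ℂ)).mul h4
      have h6 := (h1.congr_of_eventuallyEq h2.symm).unique h5
      rw [h6]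
      rw [h3]
      simp
    rw [map_sub, map_mul, map_mul, hval g1 e hg1, hval g0 e hg0, hder g1 e hg1, hder g0 e hg0,
      map_sub, map_mul, map_mul, hVP, hVP, hVP, hVP]
    ring

end Pool.Agent.TH8.UNI
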