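import Pool.Agent.TH8.UNI.Par
import Pool.Agent.TH8.UNI.Uni

/-!
Parametrizations over number fields.
-/

set_option autoImplicit false

open MvPolynomial Set Pool.Agent.TH143 Pool.Agent.TH143.GT Pool.Agent.W602.GT

namespace Pool.Agent.TH8.UNI

/-- algebras of finite type over an algebraically closed field have points -/
theorem exists_point {k : Type} [Field k] [IsAlgClosed k] (A : Type) [CommRing A] [Nontrivial A]
    [Algebra k A] [Algebra.FiniteType k A] : Nonempty (A →ₐ[k] k) := by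
  obtain ⟨m, hm⟩ := Ideal.exists_maximal A
  let _ : Field (A ⧸ m) := Ideal.Quotient.field m
  have h1 : Algebra.FiniteType k (A ⧸ m) :=
    Algebra.FiniteType.of_surjective (Ideal.Quotient.mkₐ k m) Ideal.Quotient.mk_surjective
  have h2 : Module.Finite k (A ⧸ m) := finite_of_finite_type_of_isJacobsonRing k (A ⧸ m)
  have h3 : Function.Bijective (algebraMap k (A ⧸ m)) :=
    IsAlgClosed.algebraMap_bijective_of_isIntegral
  let e : k ≃ₐ[k] (A ⧸ m) := AlgEquiv.ofBijective (Algebra.ofId k (A ⧸ m)) h3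
  exact ⟨e.symm.toAlgHom.comp (Ideal.Quotient.mkₐ k m)⟩

/-- the Jacobian in the point `(1, ..., 1)`, times a coordinate -/
noncomputable def jac {R : Type} [CommRing R] {N w : ℕ} (i0 : Fin (N + 1))
    (j : Fin w → Fin (N + 1)) (W : Fin (N + 1) → MvPolynomial (Fin w) R) : R :=
  (Matrix.of fun i l => eval (fun _ => 1)
    (pderiv i (W (j l)) * W i0 - W (j l) * pderiv i (W i0))).det * eval (fun _ => 1) (W i0)

theorem jac_map {R R' : Type} [CommRing R] [CommRing R'] (g : R →+* R') {N w : ℕ}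
    (i0 : Fin (N + 1)) (j : Fin w → Fin (N + 1)) (W : Fin (N + 1) → MvPolynomial (Fin w) R) :
    jac i0 j (fun i => map g (W i)) = g (jac i0 j W) := by
  have h1 : ∀ P : MvPolynomial (Fin w) R, eval (fun _ => 1) (map g P) = g (eval (fun _ => 1) P) := by
    intro P
    rw [map_eval]
    congr 2
    funext i
    simp
  unfold jac
  rw [h1, map_mul, RingHom.map_det]
  congr 2
  ext i l
  rw [RingHom.mapMatrix_apply, Matrix.map_apply, Matrix.of_apply, Matrix.of_apply, ← h1]
  simp only [map_sub, map_mul, pderiv_map]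

/-- **Specialization of parametrizations.** -/
theorem specialize {k : Type} [Field k] [IsAlgClosed k] [Algebra k ℂ] {N w : ℕ}
    (W : Fin (N + 1) → MvPolynomial (Fin w) ℂ) (T : Set (MvPolynomial (Fin (N + 1)) k))
    (hT : ∀ G ∈ T, aeval W (map (algebraMap k ℂ) G) = 0) (i0 : Fin (N + 1))
    (j : Fin w → Fin (N + 1)) (hJ : jac i0 j W ≠ 0) :
    ∃ W' : Fin (N + 1) → MvPolynomial (Fin w) k, (∀ G ∈ T, aeval W' G = 0) ∧ jac i0 j W' ≠ 0 := by
  classical
  let S : Finset ℂ := (Finset.univ.biUnion fun i => (W i).coeffs) ∪ {(jac i0 j W)⁻¹}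
  let A : Subalgebra k ℂ := Algebra.adjoin k (S : Set ℂ)
  have hfin : Algebra.FiniteType k A := A.fg_iff_finiteType.1 (Subalgebra.fg_adjoin_finset S)
  obtain ⟨ψ⟩ := exists_point (k := k) A
  have hlift : ∀ i, ∃ P : MvPolynomial (Fin w) A, map (A.val : A →+* ℂ) P = W i := by
    intro i
    have h1 : W i ∈ Set.range (map (σ := Fin w) (A.val : A →+* ℂ)) := by
      rw [mem_range_map_iff_coeffs_subset]
      intro c hc
      exact ⟨⟨c, Algebra.subset_adjoin (by
        rw [Finset.mem_coe, Finset.mem_union, Finset.mem_biUnion]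
        exact Or.inl ⟨i, Finset.mem_univ i, hc⟩)⟩, rfl⟩
    exact h1
  choose WA hWA using hlift
  have hWA' : (fun i => map (A.val : A →+* ℂ) (WA i)) = W := funext hWA
  refine ⟨fun i => map (ψ : A →+* k) (WA i), fun G hG => ?_, ?_⟩
  · have h1 : aeval WA G = 0 := by
      have h2 := MvPolynomial.comp_aeval_apply (f := WA) (MvPolynomial.mapAlgHom (σ := Fin w) A.val) G
      have h3 : (fun i => (MvPolynomial.mapAlgHom (σ := Fin w) A.val) (WA i)) = W :=
        funext fun i => hWA i
      have h5 : aeval W (map (algebraMap k ℂ) G) = aeval W G := aeval_map_algebraMap ℂ W G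
      rw [h3, ← h5, hT G hG] at h2
      have h4 : map (A.val : A →+* ℂ) (aeval WA G) = 0 := h2
      exact (map_injective (A.val : A →+* ℂ) Subtype.val_injective) (by rw [h4, map_zero])
    have h2 := MvPolynomial.comp_aeval_apply (f := WA) (MvPolynomial.mapAlgHom (σ := Fin w) ψ) G
    rw [h1, map_zero] at h2
    exact h2.symm
  · rw [jac_map]
    have h1 : (A.val : A →+* ℂ) (jac i0 j WA) = jac i0 j W := by
      rw [← jac_map, hWA']
    let u : A := ⟨(jac i0 j W)⁻¹, Algebra.subset_adjoin (by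
      rw [Finset.mem_coe, Finset.mem_union, Finset.mem_singleton]
      exact Or.inr rfl)⟩
    have h2 : jac i0 j WA * u = 1 := by
      apply Subtype.ext
      change (A.val : A →+* ℂ) (jac i0 j WA) * (jac i0 j W)⁻¹ = 1
      rw [h1, mul_inv_cancel₀ hJ]
    intro h3
    have h4 := congrArg (ψ : A →+* k) h2
    rw [map_mul, h3, zero_mul, map_one] at h4
    exact zero_ne_one h4

theorem linOver_one {Ω : Set ℂ} (hne : Ω.Nonempty) (B : Subalgebra ℂ (ℂ → ℂ)) :
    LinOver Ω B (fun _ => 1) := by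
  obtain ⟨z, hz⟩ := hne
  refine ⟨1, fun k => if k = 0 then 0 else 1, fun k => ?_, ⟨1, le_rfl, z, hz, by simp⟩,
    fun z _ => ?_⟩
  · by_cases hk : k = 0
    · simp only [hk, if_true]
      exact B.zero_mem
    · simp only [hk, if_false]
      exact B.one_mem
  · rw [Finset.sum_range_succ, Finset.sum_range_one, iteratedDeriv_one]
    simp

/-- parametrizations with a nonzero Jacobian -/
theorem uni_jac {N : ℕ} {p : Ideal (MvPolynomial (Fin (N + 1)) ℂ)} {K : Type} [Field K]
    [Algebra ℂ K] {w : ℕ} {y : Fin (N + 1) → K} (hy : FunField p 1 K w y) (h : Unirational K) :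
    ∃ (i0 : Fin (N + 1)) (j : Fin w → Fin (N + 1)) (W : Fin (N + 1) → MvPolynomial (Fin w) ℂ),
      y i0 ≠ 0 ∧ IsTranscendenceBasis ℂ (fun l => y (j l) / y i0) ∧
      (∀ G : MvPolynomial (Fin (N + 1)) ℂ, IsForm G → W602.GT.val y G = 0 → aeval W G = 0) ∧
      jac i0 j W ≠ 0 := by
  obtain ⟨Ω, B, f, h1, h2, h3, h4, h5, h6, h7, h8⟩ := ((uni_tfae hy).out 0 5).1 h
  obtain ⟨i0, j, W, e1, e2, e3, e4, e5, -⟩ := uni_log h1 h2 h3 h4 f h5 h6 (fun _ => 1)
    (fun z _ => analyticAt_const) (linOver_one h3 B) (isHomogeneous_one _ _)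
    (fun z _ => by rw [map_one, mul_one]) (genPt_of hy h7 fun G hG h0 => h8.zdense h3 G hG h0)
    (fun r b hb hind e G hG hz i => hy.sub.mem _ (h8 r b hb hind e G hG hz i))
  exact ⟨i0, j, W, e1, e2, e3, mul_ne_zero e5 e4⟩

/-- **Potential density** of a projective variety over `k`: its points over some finite extension
of `k` are Zariski-dense. -/
def PotDense (k : Type) [Field k] [Algebra k ℂ] {N : ℕ}
    (p : Ideal (MvPolynomial (Fin (N + 1)) ℂ)) : Prop :=
  ∃ L : IntermediateField k ℂ, FiniteDimensional k L ∧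
    ∀ G : MvPolynomial (Fin (N + 1)) ℂ, IsForm G →
      (∀ x : Fin (N + 1) → ℂ, x ≠ 0 → (∀ j, x j ∈ L) → (∀ H ∈ p, eval x H = 0) → eval x G = 0) →
      G ∈ p

/-- **Unirational varieties are potentially dense**, over all subfields of `ℂ`. -/
theorem pot_dense (k : Type) [Field k] [Algebra k ℂ] {N : ℕ}
    (T : Set (MvPolynomial (Fin (N + 1)) k)) (hT : ∀ G ∈ T, ∃ d, G.IsHomogeneous d)
    {p : Ideal (MvPolynomial (Fin (N + 1)) ℂ)} (hp : p = Ideal.span (map (algebraMap k ℂ) '' T))
    {K : Type} [Field K] [Algebra ℂ K] {w : ℕ} {y : Fin (N + 1) → K} (hy : FunField p 1 K w y)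
    (h : Unirational K) : PotDense k p := by
  classical
  obtain ⟨i0, j, W, e1, e2, e3, e4⟩ := uni_jac hy h
  let kb : IntermediateField k ℂ := algebraicClosure k ℂ
  have hkb : IsAlgClosed kb := (algebraicClosure.isAlgClosure k ℂ).1
  let T' : Set (MvPolynomial (Fin (N + 1)) kb) := map (algebraMap k kb) '' T
  obtain ⟨W', hW', hJ'⟩ := specialize (k := kb) W T' (by
    rintro _ ⟨G, hG, rfl⟩
    obtain ⟨d, hd⟩ := hT G hG
    have h1 : map (algebraMap kb ℂ) (map (algebraMap k kb) G) = map (algebraMap k ℂ) G := by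
      rw [map_map, ← IsScalarTower.algebraMap_eq]
    rw [h1]
    refine e3 _ ⟨d, hd.map _⟩ (hy.sub.mem _ ?_)
    rw [hp]
    exact Ideal.subset_span ⟨G, hG, rfl⟩) i0 j e4
  let W2 : Fin (N + 1) → MvPolynomial (Fin w) ℂ := fun i => map (algebraMap kb ℂ) (W' i)
  have hJ2 : jac i0 j W2 ≠ 0 := by
    have h1 : jac i0 j W2 = algebraMap kb ℂ (jac i0 j W') := jac_map _ _ _ _
    rw [h1, Ne, map_eq_zero]
    exact hJ'
  have hT2 : ∀ G ∈ p, aeval W2 G = 0 := by
    intro G hG
    have h1 : p ≤ RingHom.ker (aeval W2 : MvPolynomial (Fin (N + 1)) ℂ →ₐ[ℂ] _) := by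
      rw [hp, Ideal.span_le]
      rintro _ ⟨G, hG, rfl⟩
      change aeval W2 (map (algebraMap k ℂ) G) = 0
      have h2 : map (algebraMap kb ℂ) (map (algebraMap k kb) G) = map (algebraMap k ℂ) G := by
        rw [map_map, ← IsScalarTower.algebraMap_eq]
      have h3 := MvPolynomial.comp_aeval_apply (f := W')
        (MvPolynomial.mapAlgHom (σ := Fin w) (IsScalarTower.toAlgHom kb kb ℂ))
        (map (algebraMap k kb) G)
      rw [hW' _ ⟨G, hG, rfl⟩, map_zero] at h3
      rw [← h2]
      have h4 : aeval W2 (map (algebraMap kb ℂ) (map (algebraMap k kb) G)) =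
          aeval W2 (map (algebraMap k kb) G) := aeval_map_algebraMap ℂ W2 _
      rw [h4]
      exact h3.symm
    exact h1 hG
  have hiff := fun G hG => par_iff (y := y) e1 e2 (W := W2)
    (fun G hG hv => hT2 G (hy.mem G hG hv)) (right_ne_zero_of_mul hJ2) (left_ne_zero_of_mul hJ2) G hG
  let S : Finset ℂ := Finset.univ.biUnion fun i => (W2 i).coeffs
  have hSalg : ∀ x ∈ (S : Set ℂ), IsIntegral k x := by
    intro x hx
    rw [Finset.mem_coe, Finset.mem_biUnion] at hx
    obtain ⟨i, -, hx⟩ := hx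
    have h1 : x ∈ Set.range (algebraMap kb ℂ) := by
      have h2 : W2 i ∈ Set.range (map (σ := Fin w) (algebraMap kb ℂ)) := ⟨W' i, rfl⟩
      rw [mem_range_map_iff_coeffs_subset] at h2
      exact h2 hx
    obtain ⟨u, rfl⟩ := h1
    exact (mem_algebraicClosure_iff.1 u.2).isIntegral
  refine ⟨IntermediateField.adjoin k (S : Set ℂ),
    IntermediateField.finiteDimensional_adjoin hSalg, fun G hG hGx => ?_⟩
  apply hy.mem G hG
  rw [hiff G hG]
  have hpt : ∀ (t : Fin w → ℂ) (P : MvPolynomial (Fin (N + 1)) ℂ),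
      eval t (aeval W2 P) = eval (fun i => eval t (W2 i)) P := by
    intro t P
    have h2 := MvPolynomial.comp_aeval_apply (f := W2)
      (aeval t : MvPolynomial (Fin w) ℂ →ₐ[ℂ] ℂ) P
    rw [← MvPolynomial.aeval_eq_eval, ← MvPolynomial.aeval_eq_eval]
    exact h2
  have hL : ∀ (t : Fin w → ℕ) (i : Fin (N + 1)),
      eval (fun l => (t l : ℂ)) (W2 i) ∈ IntermediateField.adjoin k (S : Set ℂ) := by
    intro t i
    rw [eval_eq']
    refine sum_mem fun d hd => mul_mem ?_ (prod_mem fun l _ => pow_mem (natCast_mem _ _) _)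
    apply IntermediateField.subset_adjoin
    rw [Finset.mem_coe, Finset.mem_biUnion]
    exact ⟨i, Finset.mem_univ i, MvPolynomial.coeff_mem_coeffs d (MvPolynomial.mem_support_iff.1 hd)⟩
  have hval : ∀ t : Fin w → ℕ, (fun i => eval (fun l => (t l : ℂ)) (W2 i)) ≠ 0 →
      eval (fun l => (t l : ℂ)) (aeval W2 G) = 0 := by
    intro t ht
    rw [hpt]
    refine hGx _ ht (hL t) fun H hH => ?_
    rw [← hpt, hT2 H hH, map_zero]
  have h1 : (fun i => eval (fun l : Fin w => (((fun _ => 1 : Fin w → ℕ) l : ℕ) : ℂ)) (W2 i)) ≠ 0 := by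
    intro h0
    apply right_ne_zero_of_mul hJ2
    have := congrFun h0 i0
    simpa using this
  obtain ⟨e, he⟩ := hG
  rcases Nat.eq_zero_or_pos e with rfl | hepos
  · obtain ⟨c, rfl⟩ : ∃ c, G = C c := ⟨coeff 0 G, (totalDegree_eq_zero_iff_eq_C).1
      (Nat.le_zero.1 he.totalDegree_le)⟩
    have h2 := hval (fun _ => 1) h1
    rw [hpt, eval_C] at h2
    rw [h2, C_0, map_zero]
  · apply MvPolynomial.funext_set (fun _ => Set.range (fun n : ℕ => (n : ℂ)))
      (fun _ => Set.infinite_range_of_injective Nat.cast_injective)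
    intro x hx
    choose t ht using fun i => hx i (Set.mem_univ i)
    have hxt : x = fun l => (t l : ℂ) := funext fun i => (ht i).symm
    rw [hxt, map_zero]
    by_cases h2 : (fun i => eval (fun l => (t l : ℂ)) (W2 i)) = 0
    · rw [hpt, h2]
      have h3 : eval (0 : Fin (N + 1) → ℂ) G = 0 := by
        rw [eval_zero, constantCoeff_eq]
        by_contra h4
        have h5 := he h4
        rw [map_zero] at h5
        omega
      exact h3
    · exact hval t h2

end Pool.Agent.TH8.UNI
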