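import Pool.Agent.TH8.UNI.Setup
import Pool.Agent.TH8.UNI.Multi
import Pool.Agent.W602.GT.Orb

/-!
Curves which are dense over the ring of coefficients: the ambient variety is unirational.
-/

set_option autoImplicit false

open MvPolynomial Metric Set Filter Topology Pool.Agent.TH143 Pool.Agent.TH143.GT
  Pool.Agent.W602.GT

namespace Pool.Agent.TH8.UNI

/-- derivations which are dual to independent elements -/
theorem dual_der {E F : Type} [Field E] [Field F] [Algebra E F] [CharZero E] {w : ℕ}
    {x : Fin w → F} (hx : AlgebraicIndependent E x) :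
    ∃ D : Fin w → Derivation E F F, ∀ i j, D i (x j) = if i = j then 1 else 0 := by
  classical
  have key : ∀ i : Fin w, ∃ D : Derivation E F F, ∀ j, D (x j) = if i = j then 1 else 0 := by
    intro i
    let L1 : IntermediateField E F := IntermediateField.adjoin E (x '' {i}ᶜ)
    have htr : Transcendental L1 (x i) :=
      IntermediateField.transcendental_adjoin_iff.2 (hx.transcendental_adjoin (by simp))
    obtain ⟨D, hD⟩ := der_of_transcendental htr
    refine ⟨D.restrictScalars E, fun j => ?_⟩
    change D (x j) = _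
    by_cases h : i = j
    · rw [if_pos h, ← h, hD]
    · rw [if_neg h]
      exact D.map_algebraMap (⟨x j, IntermediateField.subset_adjoin E _ ⟨j, Ne.symm h, rfl⟩⟩ : L1)
  choose D hD using key
  exact ⟨D, hD⟩

/-- the derivative of a quotient -/
theorem der_quot {E F : Type} [Field E] [Field F] [Algebra E F] (D : Derivation E F F) {a b : F}
    (hb : b ≠ 0) : D a * b - a * D b = b ^ 2 * D (a / b) := by
  have h1 : a = a / b * b := by field_simp
  have h2 : D a = D (a / b * b) := congrArg D h1
  rw [D.leibniz, smul_eq_mul, smul_eq_mul] at h2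
  rw [h2]
  field_simp
  ring

/-- **The unirationality theorem.** Let `f` be a holomorphic curve in the projective variety with
generic point `y` whose homogeneous coordinates satisfy linear differential equations over a
differential ring `B` of holomorphic functions on `Ω`. If `f` is dense over `B`, then the variety
is unirational. -/
theorem uni_gen {Ω : Set ℂ} (hΩ : IsOpen Ω) (hΩc : IsPreconnected Ω) (hne : Ω.Nonempty)
    {B : Subalgebra ℂ (ℂ → ℂ)} (hB : DiffRing Ω B) {N : ℕ}
    (f : ℂ → Fin (N + 1) → ℂ) (hf : ∀ j, AnalyticOnNhd ℂ (fun w => f w j) Ω)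
    (hlin : ∀ j, LinOver Ω B (fun w => f w j)) {K : Type} [Field K] [Algebra ℂ K] {w : ℕ}
    {y : Fin (N + 1) → K} (hpt : GenPt f Ω K w y)
    (h : DenseOver Ω B (fun G => W602.GT.val y G = 0) f) :
    Nonempty (K →ₐ[ℂ] FractionRing (MvPolynomial (Fin w) ℂ)) := by
  classical
  obtain ⟨z0, r, s, hsB, hs, n, bb, hbb, dd, A, U, L, hr, hSΩ, hdd, hU, hdet, hloc, hfU⟩ :=
    exists_setup hΩ hΩc hne hB f hf hlin
  set S := ball z0 r with hS
  have hSo : IsOpen S := isOpen_ball
  have hSc : IsPreconnected S := (convex_ball z0 r).isPreconnected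
  have hSne : S.Nonempty := ⟨z0, mem_ball_self hr⟩
  have hdom : IsDomain (Hol S) := hol_domain hSc hSne
  let F := FractionRing (Hol S)
  -- the point
  have hUan : ∀ l : (B × ℕ) ⊕ (Fin n × Fin n), AnalyticOnNhd ℂ (fun z => vv bb U z l) S := by
    intro l
    rcases l with p | ⟨i, j⟩
    · exact hbb p
    · have h1 : DifferentiableOn ℂ (fun w => U w i j) S := fun z hz =>
        (hU z hz i j).differentiableAt.differentiableWithinAt
      exact h1.analyticOnNhd hSo
  let V : (B × ℕ) ⊕ (Fin n × Fin n) → Hol S := fun l => toHol (fun z => vv bb U z l) (hUan l)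
  have hV : ∀ (z : S) l, evz z (V l) = vv bb U z l := fun z l => rfl
  let Xh : Fin (N + 1) → Hol S := fun j => toHol (fun z => f z j) ((hf j).mono hSΩ)
  have hXh : ∀ j (z : S), evz z (Xh j) = f z j := fun j z => rfl
  let Φ : Fin (N + 1) → MvPolynomial ((B × ℕ) ⊕ (Fin n × Fin n)) ℂ := fun j =>
    ∑ k, ∑ l, C (L j k l) * X (Sum.inr (k, l))
  have hVP : ∀ (z : S) (P : MvPolynomial ((B × ℕ) ⊕ (Fin n × Fin n)) ℂ),
      evz z (aeval V P) = eval (vv bb U z) P := by
    intro z P
    have h4 := MvPolynomial.comp_aeval_apply (f := V) (evz z) P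
    rw [h4, ← MvPolynomial.aeval_eq_eval]
    rfl
  have hXV : ∀ j, aeval V (Φ j) = Xh j := by
    intro j
    apply hol_ext
    intro z
    rw [hVP, hXh, hfU z z.2]
    simp only [Φ, map_sum, map_mul, eval_C, eval_X, vv, Sum.elim_inr]
  obtain ⟨i0, h0⟩ : ∃ i, y i ≠ 0 := Function.ne_iff.1 hpt.ne
  obtain ⟨j, hj⟩ := exists_coord_basis hpt.gen hpt.dim h0
  have hXh0 : Xh i0 ≠ 0 := by
    intro h1
    apply h0
    have h2 := (hpt.rel (X i0) ⟨1, isHomogeneous_X ℂ i0⟩).2 (by
      intro z hz
      rw [eval_X]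
      have h3 := (hf i0).eqOn_zero_of_preconnected_of_eventuallyEq_zero hΩc
        (hSΩ (mem_ball_self hr)) (by
          filter_upwards [hSo.mem_nhds (mem_ball_self hr)] with z hz
          have := congrArg (evz (⟨z, hz⟩ : S)) h1
          rw [hXh, map_zero] at this
          exact this)
      exact h3 hz)
    unfold W602.GT.val at h2
    rwa [aeval_X] at h2
  set aM := algebraMap (Hol S) F with haM
  have haMi : Function.Injective aM := IsFractionRing.injective (Hol S) F
  have hx0 : aM (Xh i0) ≠ 0 := by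
    rw [Ne, map_eq_zero_iff aM haMi]
    exact hXh0
  have hind1 := indep_over hΩc hSΩ hSo hSne hB.an hf h hsB hs (F := F) Xh hXh h0 hx0 hj.1
  let E := IntermediateField.adjoin ℂ (aM '' (locAlg B s hsB S hs : Set (Hol S)))
  have hind2 : AlgebraicIndependent E (fun l => aM (Xh (j l)) / aM (Xh i0)) :=
    IntermediateField.algebraicIndependent_adjoin_iff.2 hind1
  obtain ⟨D, hD⟩ := dual_der hind2
  have hGX : ∀ i, aeval V (bind₁ Φ (X i)) = Xh i := by
    intro i
    rw [bind₁_X_right, hXV]
  obtain ⟨Ef, η, m, p, hE, hEd⟩ := all_dirs hSo hSc hSne (K := F) bb hbb dd hdd A U hU hdet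
    (locAlg B s hsB S hs) hloc V hV (fun i => D i) (fun i x y => (D i).map_add x y)
    (fun i x y => by
      rw [(D i).leibniz, smul_eq_mul, smul_eq_mul])
    (fun i x hx => (D i).map_algebraMap
      (⟨aM x, IntermediateField.subset_adjoin ℂ _ ⟨x, hx, rfl⟩⟩ : E))
    (fun _ => bind₁ Φ (X i0)) (fun l => bind₁ Φ (X (j l))) (fun _ => aM (Xh i0) ^ 2)
    (fun _ => pow_ne_zero 2 hx0) (by
      intro i l
      rw [hGX, hGX]
      have h1 := der_quot (D i) (a := aM (Xh (j l))) hx0
      rw [hD] at h1
      refine h1.trans ?_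
      rw [mul_ite, mul_one, mul_zero])
  set Δ := (Matrix.of fun i l => dir V (fun _ => bind₁ Φ (X i0)) (fun l => bind₁ Φ (X (j l)))
    (η i) l).det with hΔ
  obtain ⟨a, ha⟩ : ∃ a : S, evz a (Δ * Xh i0) ≠ 0 := by
    by_contra hcon
    push Not at hcon
    exact mul_ne_zero hEd hXh0 (hol_ext fun z => by rw [hcon z, map_zero])
  rw [map_mul] at ha
  obtain ⟨W, hW1, hW2, hW3⟩ := multi_family bb U V hV Ef η m p hE L a
  have hWa : ∀ j, eval (fun _ => 1) (W j) = f a j := by
    intro j
    rw [hW2, hfU a a.2]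
  let FR := FractionRing (MvPolynomial (Fin w) ℂ)
  let y' : Fin (N + 1) → FR := fun j => algebraMap _ FR (W j)
  have hinj : Function.Injective (algebraMap (MvPolynomial (Fin w) ℂ) FR) :=
    IsFractionRing.injective _ _
  have hW0 : W i0 ≠ 0 := by
    intro h1
    apply right_ne_zero_of_mul ha
    rw [hXh, ← hWa, h1, map_zero]
  have h0' : y' i0 ≠ 0 := by
    change algebraMap _ FR (W i0) ≠ 0
    rw [Ne, map_eq_zero_iff _ hinj]
    exact hW0
  obtain ⟨D', hD'⟩ := exists_pd (k := ℂ) w
  have hjac : AlgebraicIndependent ℂ (fun l => y' (j l) / y' i0) := by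
    apply jac_indep D'
    intro hdet0
    have h1 : (Matrix.of fun i l => pderiv i (W (j l)) * W i0 - W (j l) * pderiv i (W i0)).det
        = 0 := by
      apply hinj
      rw [map_zero, RingHom.map_det]
      have h2 : (algebraMap (MvPolynomial (Fin w) ℂ) FR).mapMatrix
          (Matrix.of fun i l => pderiv i (W (j l)) * W i0 - W (j l) * pderiv i (W i0)) =
          (y' i0 ^ 2) • Matrix.of fun i l => D' i (y' (j l) / y' i0) := by
        ext i l
        rw [RingHom.mapMatrix_apply, Matrix.map_apply, Matrix.smul_apply, Matrix.of_apply,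
          Matrix.of_apply, smul_eq_mul, ← der_quot (D' i) h0', map_sub, map_mul, map_mul]
        change _ = D' i (algebraMap _ _ (W (j l))) * _ - _ * D' i (algebraMap _ _ (W i0))
        rw [hD', hD']
      rw [h2, Matrix.det_smul, hdet0, mul_zero]
    apply left_ne_zero_of_mul ha
    have h2 := congrArg (eval (fun _ => (1 : ℂ))) h1
    rw [map_zero, RingHom.map_det] at h2
    rw [hΔ, AlgHom.map_det, ← h2]
    congr 1
    ext i l
    rw [RingHom.mapMatrix_apply, Matrix.map_apply, Matrix.of_apply, AlgHom.mapMatrix_apply,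
      Matrix.map_apply, Matrix.of_apply]
    have h3 := hW3 i (X (j l)) (X i0) 1 (isHomogeneous_X ℂ _) (isHomogeneous_X ℂ _)
    rw [aeval_X, aeval_X] at h3
    exact h3.symm
  have hspec : ∀ G : MvPolynomial (Fin (N + 1)) ℂ, IsForm G →
      W602.GT.val y G = 0 → W602.GT.val y' G = 0 := by
    intro G hG hv
    have h1 := (hpt.rel G hG).1 hv
    have h2 := hW1 G hG (by
      intro z hz
      have h3 : (fun j => ∑ k, ∑ l, L j k l * U z k l) = f z := funext fun j => (hfU z hz j).symm
      rw [h3]
      exact h1 z (hSΩ hz))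
    have h3 := MvPolynomial.comp_aeval_apply (f := W)
      (IsScalarTower.toAlgHom ℂ (MvPolynomial (Fin w) ℂ) FR) G
    rw [h2, map_zero] at h3
    exact h3.symm
  obtain ⟨φ, -⟩ := exists_embedding h0 h0' hpt.gen (fun G hG =>
    spec_iff h0 h0' hspec hj hjac G hG)
  exact ⟨φ⟩

end Pool.Agent.TH8.UNI
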