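import Pool.Agent.TH8.UNI.Gen
import Pool.Agent.H327R2.SC.ExpPoly

/-!
Curves whose graph is Zariski-dense, and the entire curves `z ↦ W(2^z, 3^z, 5^z, ...)`.
-/

set_option autoImplicit false

open MvPolynomial Metric Set Filter Topology Pool.Agent.TH143 Pool.Agent.TH143.GT
  Pool.Agent.W602.GT

namespace Pool.Agent.TH8.UNI

/-- **The graph of `f` over `Ω` is Zariski-dense** in the product of the affine line and the
variety with the ideal `p`: every polynomial `∑ z ^ k G k (x)`, homogeneous in `x`, which vanishes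
on the graph has all its coefficients `G k` in `p`. -/
def GraphDense {N : ℕ} (p : Ideal (MvPolynomial (Fin (N + 1)) ℂ)) (Ω : Set ℂ)
    (f : ℂ → Fin (N + 1) → ℂ) : Prop :=
  ∀ (q e : ℕ) (G : Fin q → MvPolynomial (Fin (N + 1)) ℂ), (∀ k, (G k).IsHomogeneous e) →
    (∀ z ∈ Ω, ∑ k : Fin q, z ^ (k : ℕ) * eval (f z) (G k) = 0) → ∀ k, G k ∈ p

theorem GraphDense.denseOver {N : ℕ} {p : Ideal (MvPolynomial (Fin (N + 1)) ℂ)} {Ω : Set ℂ}
    {f : ℂ → Fin (N + 1) → ℂ} (h : GraphDense p Ω f) :
    DenseOver Ω Pool.Agent.TH8.QD.polS (fun G => G ∈ p) f := by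
  classical
  intro q b hb hind e G hG hz
  choose P hP using fun i => (show ∃ P : Polynomial ℂ, ∀ z, b i z = P.eval z from hb i)
  let T : (Fin q → ℂ) →ₗ[ℂ] Polynomial ℂ := Fintype.linearCombination ℂ P
  have hT : ∀ c, T c = ∑ i, c i • P i := fun c => Fintype.linearCombination_apply ℂ P c
  have hTi : LinearMap.ker T = ⊥ := by
    rw [LinearMap.ker_eq_bot']
    intro c hc
    apply hind c
    intro z _
    have h1 := congrArg (fun R => Polynomial.eval z R) (hc)
    rw [hT] at h1
    simp only [Polynomial.eval_finsetSum, Polynomial.eval_smul, smul_eq_mul,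
      Polynomial.eval_zero] at h1
    rw [← h1]
    exact Finset.sum_congr rfl fun i _ => by rw [hP]
  obtain ⟨g, hg⟩ := LinearMap.exists_leftInverse_of_injective T hTi
  set d := (Finset.univ.sup fun i => (P i).natDegree) + 1 with hd
  have hPd : ∀ i, (P i).natDegree < d := fun i =>
    Nat.lt_succ_of_le (Finset.le_sup (f := fun i => (P i).natDegree) (Finset.mem_univ i))
  have h1 := h d e (fun k => ∑ i, C ((P i).coeff k) * G i) (fun k => by
    apply IsHomogeneous.sum
    intro i _
    have := (isHomogeneous_C (Fin (N + 1)) ((P i).coeff k)).mul (hG i)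
    rwa [zero_add] at this) (by
      intro z hzΩ
      rw [← hz z hzΩ]
      simp only [map_sum, map_mul, eval_C, Finset.mul_sum]
      rw [Finset.sum_comm]
      refine Finset.sum_congr rfl fun i _ => ?_
      rw [hP, Polynomial.eval_eq_sum_range' (hPd i), Finset.sum_mul, Finset.sum_range]
      exact Finset.sum_congr rfl fun k _ => by ring)
  intro i
  have h2 : G i = ∑ k : Fin d, C (g (Polynomial.X ^ (k : ℕ)) i) * ∑ j, C ((P j).coeff k) * G j := by
    have h3 : ∀ j, ∑ k : Fin d, g (Polynomial.X ^ (k : ℕ)) i * (P j).coeff k =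
        if j = i then 1 else 0 := by
      intro j
      have h4 : P j = ∑ k : Fin d, (P j).coeff k • Polynomial.X ^ (k : ℕ) := by
        conv_lhs => rw [(P j).as_sum_range' d (hPd j)]
        rw [Finset.sum_range]
        exact Finset.sum_congr rfl fun k _ => by
          rw [Polynomial.smul_eq_C_mul, Polynomial.C_mul_X_pow_eq_monomial]
      have h5 : g (P j) i = if j = i then 1 else 0 := by
        have h6 := LinearMap.congr_fun hg (Pi.single j 1)
        rw [LinearMap.comp_apply, hT, Finset.sum_eq_single j] at h6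
        · rw [Pi.single_eq_same, one_smul, LinearMap.id_apply] at h6
          rw [h6, Pi.single_apply]
          by_cases hji : j = i
          · rw [if_pos hji, if_pos hji.symm]
          · rw [if_neg hji, if_neg (Ne.symm hji)]
        · intro l _ hl
          rw [Pi.single_eq_of_ne hl, zero_smul]
        · intro h7
          exact absurd (Finset.mem_univ _) h7
      rw [← h5]
      conv_rhs => rw [h4]
      rw [map_sum, Finset.sum_apply]
      refine Finset.sum_congr rfl fun k _ => ?_
      rw [map_smul, Pi.smul_apply, smul_eq_mul, mul_comm]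
    simp only [Finset.mul_sum]
    rw [Finset.sum_comm]
    have h4 : ∀ j, ∑ k : Fin d, C (g (Polynomial.X ^ (k : ℕ)) i) * (C ((P j).coeff k) * G j) =
        C (if j = i then (1 : ℂ) else 0) * G j := by
      intro j
      rw [← h3 j, map_sum, Finset.sum_mul]
      exact Finset.sum_congr rfl fun k _ => by rw [C_mul, mul_assoc]
    rw [Finset.sum_congr rfl fun j _ => h4 j, Finset.sum_eq_single i]
    · rw [if_pos rfl, C_1, one_mul]
    · intro j _ hj
      rw [if_neg hj, C_0, zero_mul]
    · intro h7
      exact absurd (Finset.mem_univ _) h7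
  rw [h2]
  exact Ideal.sum_mem _ fun k _ => p.mul_mem_left _ (h1 k)

/-- the number with the exponents `α` -/
noncomputable def num {m : ℕ} (α : Fin m →₀ ℕ) : ℕ :=
  ∏ l : Fin m, Nat.nth Nat.Prime l ^ α l

theorem num_pos {m : ℕ} (α : Fin m →₀ ℕ) : 0 < num α :=
  Finset.prod_pos fun l _ => pow_pos (Nat.prime_nth_prime l).pos _

theorem num_inj {m : ℕ} {α β : Fin m →₀ ℕ} (h : num α = num β) : α = β := by
  classical
  have key : ∀ (γ : Fin m →₀ ℕ) (l : Fin m),
      (num γ).factorization (Nat.nth Nat.Prime l) = γ l := by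
    intro γ l
    unfold num
    rw [Nat.factorization_prod (S := Finset.univ)
      (g := fun i : Fin m => Nat.nth Nat.Prime i ^ γ i)
      fun i _ => (pow_ne_zero _ (Nat.prime_nth_prime i).ne_zero)]
    rw [Finsupp.finsetSum_apply, Finset.sum_eq_single l]
    · rw [Nat.factorization_pow, (Nat.prime_nth_prime l).factorization]
      simp
    · intro i _ hi
      rw [Nat.factorization_pow, (Nat.prime_nth_prime i).factorization]
      have h1 : Nat.nth Nat.Prime i ≠ Nat.nth Nat.Prime l := by
        intro h2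
        apply hi
        exact Fin.ext (Nat.nth_injective Nat.infinite_setOfPred_prime h2)
      simp [h1]
    · intro h1
      exact absurd (Finset.mem_univ _) h1
  ext l
  rw [← key α l, ← key β l, h]

/-- the curve `z ↦ W(2^z, 3^z, 5^z, ...)` -/
theorem eval_num {m : ℕ} (Q : MvPolynomial (Fin m) ℂ) (z : ℂ) :
    eval (fun l : Fin m => ((Nat.nth Nat.Prime l : ℕ) : ℂ) ^ z) Q =
      ∑ α ∈ Q.support, Q.coeff α * ((num α : ℕ) : ℂ) ^ z := by
  classical
  rw [eval_eq']
  refine Finset.sum_congr rfl fun α _ => ?_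
  congr 1
  let E : ℕ →* ℂ :=
    { toFun := fun n => (n : ℂ) ^ z
      map_one' := by simp
      map_mul' := fun a b => by
        rw [Nat.cast_mul]
        exact Complex.natCast_mul_natCast_cpow a b z }
  change ∏ l : Fin m, (E (Nat.nth Nat.Prime l)) ^ α l = E (num α)
  unfold num
  rw [map_prod]
  exact Finset.prod_congr rfl fun l _ => (map_pow E _ _).symm

/-- Dirichlet polynomials. -/
theorem eval_dirichlet {m N : ℕ} (W : Fin (N + 1) → MvPolynomial (Fin m) ℂ) :
    ∃ (M : ℕ) (a : Fin (N + 1) → ℕ → ℂ), ∀ (z : ℂ) j,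
      eval (fun l : Fin m => ((Nat.nth Nat.Prime l : ℕ) : ℂ) ^ z) (W j) =
        ∑ k ∈ Finset.Icc 1 M, a j k * (k : ℂ) ^ z := by
  classical
  let M := Finset.univ.sup fun j => (W j).support.sup num
  refine ⟨M, fun j k => ∑ α ∈ (W j).support with num α = k, (W j).coeff α, fun z j => ?_⟩
  rw [eval_num]
  have h1 : ∀ α ∈ (W j).support, num α ∈ Finset.Icc 1 M := by
    intro α hα
    rw [Finset.mem_Icc]
    refine ⟨num_pos α, ?_⟩
    exact (Finset.le_sup (f := num) hα).trans
      (Finset.le_sup (f := fun j => (W j).support.sup num) (Finset.mem_univ j))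
  rw [← Finset.sum_fiberwise_of_maps_to h1]
  refine Finset.sum_congr rfl fun k _ => ?_
  rw [Finset.sum_mul]
  refine Finset.sum_congr rfl fun α hα => ?_
  rw [(Finset.mem_filter.1 hα).2]

/-- polynomial combinations of powers -/
theorem num_indep {m q : ℕ} (Q : Fin q → MvPolynomial (Fin m) ℂ)
    (h : ∀ z : ℕ, ∑ k : Fin q, (z : ℂ) ^ (k : ℕ) *
      eval (fun l : Fin m => ((Nat.nth Nat.Prime l : ℕ) : ℂ) ^ (z : ℂ)) (Q k) = 0) :
    ∀ k, Q k = 0 := by
  classical
  let T := Finset.univ.biUnion fun k => (Q k).support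
  have hT : ∀ k, (Q k).support ⊆ T := fun k =>
    Finset.subset_biUnion_of_mem (fun k => (Q k).support) (Finset.mem_univ k)
  let R : (Fin m →₀ ℕ) → Polynomial ℂ := fun α =>
    ∑ k : Fin q, Polynomial.monomial (k : ℕ) ((Q k).coeff α)
  have h1 := Pool.Agent.H327R2.SC.expPoly_indep T (fun α : Fin m →₀ ℕ => ((num α : ℕ) : ℂ))
    (fun α β hαβ => num_inj (Nat.cast_injective hαβ))
    (fun α => Nat.cast_ne_zero.2 (num_pos α).ne') R (by
      intro z
      rw [← h z]
      have h2 : ∀ k, eval (fun l : Fin m => ((Nat.nth Nat.Prime l : ℕ) : ℂ) ^ (z : ℂ)) (Q k) =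
          ∑ α ∈ T, (Q k).coeff α * ((num α : ℕ) : ℂ) ^ z := by
        intro k
        rw [eval_num]
        refine (Finset.sum_subset (hT k) fun α _ hα => ?_).trans ?_
        · rw [MvPolynomial.notMem_support_iff.1 hα, zero_mul]
        · exact Finset.sum_congr rfl fun α _ => by rw [Complex.cpow_natCast]
      simp only [h2, Finset.mul_sum]
      rw [Finset.sum_comm]
      refine Finset.sum_congr rfl fun α _ => ?_
      simp only [R, Polynomial.eval_finsetSum, Polynomial.eval_monomial, Finset.sum_mul]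
      refine Finset.sum_congr rfl fun k _ => ?_
      ring)
  intro k
  ext α
  rw [coeff_zero]
  by_cases hα : α ∈ T
  · have h2 := congrArg (fun P => Polynomial.coeff P (k : ℕ)) (h1 α hα)
    simp only [R, Polynomial.finsetSum_coeff, Polynomial.coeff_monomial,
      Polynomial.coeff_zero] at h2
    rw [Finset.sum_eq_single k] at h2
    · rwa [if_pos rfl] at h2
    · intro j _ hj
      rw [if_neg fun h3 => hj (Fin.ext h3)]
    · intro h3
      exact absurd (Finset.mem_univ _) h3
  · by_contra hne
    exact hα (hT k (MvPolynomial.mem_support_iff.2 hne))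

end Pool.Agent.TH8.UNI
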