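import Pool.Agent.TH143.GT.Kod

/-!
The Jacobian criterion and the embedding of a function field given by a parametrization.
-/

set_option autoImplicit false

open MvPolynomial Pool.Agent.W602.GT

namespace Pool.Agent.TH8.UNI

section jac

variable {k L : Type} [Field k] [CharZero k] [Field L] [Algebra k L] {w : ℕ}

omit [CharZero k] in
theorem der_aeval (D : Derivation k L L) (Y : Fin w → L) (P : MvPolynomial (Fin w) k) :
    D (aeval Y P) = ∑ l, D (Y l) * aeval Y (pderiv l P) := by
  classical
  induction P using MvPolynomial.induction_on with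
  | C a =>
    rw [aeval_C, D.map_algebraMap]
    symm
    refine Finset.sum_eq_zero fun l _ => ?_
    rw [pderiv_C, map_zero, mul_zero]
  | add p q hp hq =>
    rw [map_add, map_add, hp, hq, ← Finset.sum_add_distrib]
    refine Finset.sum_congr rfl fun l _ => ?_
    rw [map_add, map_add, mul_add]
  | mul_X p j hp =>
    rw [map_mul, aeval_X, D.leibniz, hp]
    have h1 : ∀ l, aeval Y (pderiv l (p * X j)) =
        aeval Y p * (if l = j then 1 else 0) + Y j * aeval Y (pderiv l p) := by
      intro l
      rw [Derivation.leibniz, pderiv_X, map_add, smul_eq_mul, smul_eq_mul, map_mul, map_mul,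
        aeval_X, Pi.single_apply]
      by_cases h : l = j
      · rw [if_pos h, if_pos h.symm, map_one]
      · rw [if_neg h, if_neg (Ne.symm h), map_zero]
    simp only [h1, mul_add, Finset.sum_add_distrib, mul_ite, mul_one, mul_zero,
      Finset.sum_ite_eq', Finset.mem_univ, if_true, smul_eq_mul]
    rw [Finset.mul_sum, mul_comm (aeval Y p)]
    congr 1
    exact Finset.sum_congr rfl fun l _ => by ring

/-- **Jacobian criterion.** -/
theorem jac_indep (D : Fin w → Derivation k L L) (Y : Fin w → L)
    (h : (Matrix.of fun i l => D i (Y l)).det ≠ 0) : AlgebraicIndependent k Y := by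
  classical
  have key : ∀ (d : ℕ) (G : MvPolynomial (Fin w) k),
      (∀ α, MvPolynomial.coeff α G ≠ 0 → α.degree < d) → aeval Y G = 0 → G = 0 := by
    intro d
    induction d with
    | zero =>
      intro G hG _
      ext α
      by_contra h
      exact absurd (hG α h) (Nat.not_lt_zero _)
    | succ d ih =>
      intro G hG h0
      have h1 : ∀ l, MvPolynomial.pderiv l G = 0 := by
        have h2 : (Matrix.of fun i l => D i (Y l)).mulVec (fun l => aeval Y (pderiv l G)) = 0 := by
          funext i
          have h3 := der_aeval (D i) Y G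
          rw [h0, map_zero] at h3
          exact h3.symm
        have h3 := Matrix.eq_zero_of_mulVec_eq_zero h h2
        intro l
        apply ih
        · intro α hα
          rw [MvPolynomial.coeff_pderiv] at hα
          have h2 := hG _ (left_ne_zero_of_mul hα)
          rw [map_add, Finsupp.degree_single] at h2
          omega
        · exact congrFun h3 l
      have h2 : ∀ α : Fin w →₀ ℕ, α ≠ 0 → MvPolynomial.coeff α G = 0 := by
        intro α hα
        obtain ⟨l, hl⟩ := Finsupp.ne_iff.1 hα
        have h3 : α = (α - Finsupp.single l 1) + Finsupp.single l 1 := by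
          rw [tsub_add_cancel_of_le]
          rw [Finsupp.single_le_iff]
          exact Nat.one_le_iff_ne_zero.2 hl
        have h4 := MvPolynomial.coeff_pderiv (i := l) G (α - Finsupp.single l 1)
        rw [h1 l, MvPolynomial.coeff_zero, ← h3] at h4
        refine (mul_eq_zero.1 h4.symm).resolve_right ?_
        exact Nat.cast_add_one_ne_zero _
      have h3 : G = MvPolynomial.C (MvPolynomial.coeff 0 G) := by
        ext α
        rw [MvPolynomial.coeff_C]
        split_ifs with h
        · rw [h]
        · exact h2 α (Ne.symm h)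
      rw [h3, MvPolynomial.aeval_C] at h0
      rw [h3, (map_eq_zero (algebraMap k L)).1 h0, C_0]
  rw [AlgebraicIndependent, injective_iff_map_eq_zero]
  intro G hG
  obtain ⟨d, hd⟩ : ∃ d : ℕ, ∀ α, MvPolynomial.coeff α G ≠ 0 → α.degree < d :=
    ⟨G.support.sup (fun α => α.degree) + 1, fun α hα => Nat.lt_succ_of_le
      (Finset.le_sup (f := fun α : Fin w →₀ ℕ => α.degree) (MvPolynomial.mem_support_iff.2 hα))⟩
  exact key d G hd hG

/-- the partial derivatives on the field of rational functions -/
theorem exists_pd (w : ℕ) : ∃ D : Fin w → Derivation k (FractionRing (MvPolynomial (Fin w) k))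
    (FractionRing (MvPolynomial (Fin w) k)), ∀ i (P : MvPolynomial (Fin w) k),
      D i (algebraMap _ _ P) = algebraMap _ _ (pderiv i P) := by
  classical
  have halg : Algebra.IsAlgebraic (MvPolynomial (Fin w) k) (FractionRing (MvPolynomial (Fin w) k)) :=
    IsLocalization.isAlgebraic _ (nonZeroDivisors (MvPolynomial (Fin w) k))
  have hb : IsTranscendenceBasis k (algebraMap (MvPolynomial (Fin w) k)
      (FractionRing (MvPolynomial (Fin w) k)) ∘ (X : Fin w → MvPolynomial (Fin w) k)) :=
    (IsTranscendenceBasis.mvPolynomial (Fin w) k).algebraMap_comp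
  choose D hD using fun i : Fin w => exists_der _ hb (fun j => if j = i then (1 : FractionRing (MvPolynomial (Fin w) k)) else 0)
  refine ⟨D, fun i P => ?_⟩
  have hP : ∀ P : MvPolynomial (Fin w) k, algebraMap _ (FractionRing (MvPolynomial (Fin w) k)) P =
      aeval (algebraMap (MvPolynomial (Fin w) k)
      (FractionRing (MvPolynomial (Fin w) k)) ∘ (X : Fin w → MvPolynomial (Fin w) k)) P := by
    intro P
    have h1 := MvPolynomial.comp_aeval_apply (f := (X : Fin w → MvPolynomial (Fin w) k))
      (IsScalarTower.toAlgHom k (MvPolynomial (Fin w) k) (FractionRing (MvPolynomial (Fin w) k))) P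
    rw [MvPolynomial.aeval_X_left_apply] at h1
    exact h1
  rw [hP, der_aeval, Finset.sum_eq_single i]
  · rw [hD, if_pos rfl, one_mul, ← hP]
  · intro j _ hj
    rw [hD, if_neg hj, zero_mul]
  · intro h
    exact absurd (Finset.mem_univ _) h

end jac

/-- **Specialization.** A point `y'` at which all forms vanish which vanish at the generic point
`y`, and at which the coordinates of a transcendence basis are independent, is generic. -/
theorem spec_iff {k K L : Type} [Field k] [Field K] [Algebra k K] [Field L] [Algebra k L]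
    {n w : ℕ} {y : Fin (n + 1) → K} {y' : Fin (n + 1) → L} {i0 : Fin (n + 1)} (h0 : y i0 ≠ 0)
    (h0' : y' i0 ≠ 0)
    (h : ∀ G : MvPolynomial (Fin (n + 1)) k, IsForm G →
      W602.GT.val y G = 0 → W602.GT.val y' G = 0)
    {j : Fin w → Fin (n + 1)} (hb : IsTranscendenceBasis k (fun l => y (j l) / y i0))
    (hind : AlgebraicIndependent k (fun l => y' (j l) / y' i0))
    (G : MvPolynomial (Fin (n + 1)) k) (hG : IsForm G) :
    W602.GT.val y G = 0 ↔ W602.GT.val y' G = 0 := by
  classical
  refine ⟨h G hG, fun hG' => ?_⟩
  by_contra hne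
  obtain ⟨e, he⟩ := hG
  set u : K := aeval (fun i => y i / y i0) G with hu
  have hu0 : u ≠ 0 := by
    intro h1
    apply hne
    rw [Pool.Agent.TH143.GT.val_scale h0 he]
    change y i0 ^ e * u = 0
    rw [h1, mul_zero]
  have hu' : aeval (fun i => y' i / y' i0) G = 0 := by
    rw [Pool.Agent.TH143.GT.val_scale h0' he] at hG'
    exact (mul_eq_zero.1 hG').resolve_left (pow_ne_zero _ h0')
  have halg := hb.isAlgebraic.isAlgebraic u
  obtain ⟨q, hq0, hq⟩ := halg.exists_nonzero_coeff_and_aeval_eq_zero
    (mem_nonZeroDivisors_of_ne_zero hu0)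
  have hco : ∀ i, ∃ C' : MvPolynomial (Fin w) k,
      aeval (fun l => y (j l) / y i0) C' = ((q.coeff i : _) : K) := by
    intro i
    exact (Algebra.adjoin_range_eq_range_aeval k (fun l => y (j l) / y i0)).le (q.coeff i).2
  choose C' hC' using hco
  let Q : MvPolynomial (Fin (n + 1)) k := ∑ i ∈ Finset.range (q.natDegree + 1), rename j (C' i) * G ^ i
  have hQ : ∀ {F : Type} [Field F] [Algebra k F] (ρ : Fin (n + 1) → F), aeval ρ Q =
      ∑ i ∈ Finset.range (q.natDegree + 1), aeval (fun l => ρ (j l)) (C' i) * aeval ρ G ^ i := by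
    intro F _ _ ρ
    simp only [Q, map_sum, map_mul, map_pow, aeval_rename]
    rfl
  have h1 : aeval (fun i => y i / y i0) Q = 0 := by
    rw [hQ, ← hq, Polynomial.aeval_eq_sum_range]
    refine Finset.sum_congr rfl fun i _ => ?_
    rw [hC', Algebra.smul_def]
    rfl
  have h2 := dehom h0 h0' h Q h1
  rw [hQ, hu', Finset.sum_eq_single 0] at h2
  · rw [pow_zero, mul_one] at h2
    have h3 : C' 0 = 0 := (injective_iff_map_eq_zero _).1 hind _ h2
    apply hq0
    have h4 := hC' 0
    rw [h3, map_zero] at h4
    exact Subtype.ext h4.symm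
  · intro i _ hi
    rw [zero_pow hi, mul_zero]
  · intro hn
    exact absurd (Finset.mem_range.2 (Nat.succ_pos _)) hn

/-- a transcendence basis among the coordinates -/
theorem exists_coord_basis {k K : Type} [Field k] [Field K] [Algebra k K] {n w : ℕ}
    {y : Fin (n + 1) → K} (hgen : coords k y = ⊤) (hw : Algebra.trdeg k K = w)
    {i0 : Fin (n + 1)} (h0 : y i0 ≠ 0) :
    ∃ j : Fin w → Fin (n + 1), IsTranscendenceBasis k (fun l => y (j l) / y i0) := by
  classical
  have h2 : IntermediateField.adjoin k (Set.range fun i => y i / y i0) = ⊤ := by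
    rw [eq_top_iff, ← hgen]
    unfold coords
    rw [IntermediateField.adjoin_le_iff]
    rintro _ ⟨i, j, hj, rfl⟩
    have h3 : ∀ i, y i / y i0 ∈ IntermediateField.adjoin k (Set.range fun i => y i / y i0) :=
      fun i => IntermediateField.subset_adjoin _ _ ⟨i, rfl⟩
    have h4 : y i / y j = (y i / y i0) / (y j / y i0) := by
      field_simp
    rw [h4]
    exact div_mem (h3 i) (h3 j)
  have h3 : Algebra.IsAlgebraic (Algebra.adjoin k (Set.range fun i => y i / y i0)) K := by
    rw [← IntermediateField.isAlgebraic_adjoin_iff_top, h2]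
    refine ⟨fun x => ?_⟩
    exact isAlgebraic_algebraMap (⟨x, IntermediateField.mem_top⟩ : (⊤ : IntermediateField k K))
  obtain ⟨t, ht, hb⟩ := exists_isTranscendenceBasis_subset (R := k)
    (Set.range fun i => y i / y i0)
  have hcard := hb.cardinalMk_eq_trdeg
  rw [hw] at hcard
  have hfin : Finite t := by
    rw [← Cardinal.lt_aleph0_iff_finite, hcard]
    exact Cardinal.natCast_lt_aleph0
  obtain ⟨m', ⟨e⟩⟩ := Finite.exists_equiv_fin t
  obtain rfl : m' = w := by
    rw [Cardinal.mk_congr e, Cardinal.mk_fin] at hcard
    exact_mod_cast hcard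
  choose j hj using fun l : Fin m' => ht (e.symm l).2
  refine ⟨j, ?_⟩
  have h4 : (fun l => y (j l) / y i0) = (Subtype.val : t → K) ∘ e.symm := funext fun l => hj l
  rw [h4]
  exact hb.comp_equiv e.symm

end Pool.Agent.TH8.UNI
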