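import Pool.Agent.TH8.TEN.Ode
import Pool.Agent.TH8.UNI.Jac

/-!
Curves which are dense over a ring of functions.
-/

set_option autoImplicit false

open MvPolynomial Metric Set Filter Topology Pool.Agent.TH143 Pool.Agent.TH143.GT
  Pool.Agent.W602.GT

namespace Pool.Agent.TH8.UNI

/-- The functions `b i` are linearly independent over `ℂ` on `Ω`. -/
def IndepOn {q : ℕ} (Ω : Set ℂ) (b : Fin q → ℂ → ℂ) : Prop :=
  ∀ c : Fin q → ℂ, (∀ z ∈ Ω, ∑ i, c i * b i z = 0) → c = 0

/-- **The curve `f` is Zariski-dense over `B`** in the variety of the forms in `Z`: if `b i` are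
functions in `B` which are linearly independent over `ℂ`, and `∑ b i (z) G i (f z) = 0` for forms
`G i` of the same degree, then the `G i` vanish on the variety. -/
def DenseOver {N : ℕ} (Ω : Set ℂ) (B : Subalgebra ℂ (ℂ → ℂ))
    (Z : MvPolynomial (Fin (N + 1)) ℂ → Prop) (f : ℂ → Fin (N + 1) → ℂ) : Prop :=
  ∀ (q : ℕ) (b : Fin q → ℂ → ℂ), (∀ i, b i ∈ B) → IndepOn Ω b →
    ∀ (e : ℕ) (G : Fin q → MvPolynomial (Fin (N + 1)) ℂ), (∀ i, (G i).IsHomogeneous e) →
      (∀ z ∈ Ω, ∑ i, b i z * eval (f z) (G i) = 0) → ∀ i, Z (G i)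

theorem dense_clear {N : ℕ} {Ω : Set ℂ} {B : Subalgebra ℂ (ℂ → ℂ)}
    {Z : MvPolynomial (Fin (N + 1)) ℂ → Prop} {f : ℂ → Fin (N + 1) → ℂ} (h : DenseOver Ω B Z f)
    {A : Type} [Fintype A] (b : A → ℂ → ℂ) (hb : ∀ α, b α ∈ B) {e : ℕ}
    (m : A → MvPolynomial (Fin (N + 1)) ℂ) (hm : ∀ α, (m α).IsHomogeneous e)
    (hrel : ∀ z ∈ Ω, ∑ α, b α z * eval (f z) (m α) = 0)
    (hind : ∀ γ : A → ℂ, Z (∑ α, C (γ α) * m α) → γ = 0) : ∀ α, ∀ z ∈ Ω, b α z = 0 := by
  classical
  let v : A → Ω → ℂ := fun α z => b α z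
  let W := Submodule.span ℂ (Set.range v)
  have hWfin : FiniteDimensional ℂ W := FiniteDimensional.span_of_finite ℂ (Set.finite_range v)
  let bas := Module.finBasis ℂ W
  have hco : ∀ i, ∃ c : A → ℂ, ∑ α, c α • v α = ((bas i : W) : Ω → ℂ) := fun i =>
    (Submodule.mem_span_range_iff_exists_fun ℂ).1 (bas i).2
  choose c hc using hco
  have hvW : ∀ α, v α ∈ W := fun α => Submodule.subset_span ⟨α, rfl⟩
  let γ : A → Fin (Module.finrank ℂ W) → ℂ := fun α i => bas.repr ⟨v α, hvW α⟩ i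
  have hγ : ∀ α (z : Ω), v α z = ∑ i, γ α i * ((bas i : W) : Ω → ℂ) z := by
    intro α z
    have h1 := bas.sum_repr ⟨v α, hvW α⟩
    have h2 := congrArg (fun u : W => (u : Ω → ℂ) z) h1
    simp only [Submodule.coe_sum, Submodule.coe_smul, Finset.sum_apply, Pi.smul_apply,
      smul_eq_mul] at h2
    exact h2.symm
  let bb : Fin (Module.finrank ℂ W) → ℂ → ℂ := fun i => ∑ α, c i α • b α
  have hbb : ∀ i (z : Ω), bb i z = ((bas i : W) : Ω → ℂ) z := by
    intro i z
    rw [← hc i]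
    simp only [bb, Finset.sum_apply, Pi.smul_apply]
    rfl
  have h1 := h _ bb (fun i => B.sum_mem fun α _ => B.smul_mem (hb α) _) (by
    intro d hd
    have h2 : ∑ i, d i • bas i = 0 := by
      apply Subtype.ext
      funext z
      simp only [Submodule.coe_sum, Submodule.coe_smul, Finset.sum_apply, Pi.smul_apply,
        smul_eq_mul, Submodule.coe_zero, Pi.zero_apply]
      rw [← hd z z.2]
      exact Finset.sum_congr rfl fun i _ => by rw [hbb]
    funext i
    exact Fintype.linearIndependent_iff.1 bas.linearIndependent d h2 i) e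
    (fun i => ∑ α, C (γ α i) * m α) (fun i => by
      apply IsHomogeneous.sum
      intro α _
      have := (isHomogeneous_C (Fin (N + 1)) (γ α i)).mul (hm α)
      rwa [zero_add] at this) (by
      intro z hz
      rw [← hrel z hz]
      simp only [map_sum, map_mul, eval_C, Finset.mul_sum]
      rw [Finset.sum_comm]
      refine Finset.sum_congr rfl fun α _ => ?_
      have h2 := hγ α ⟨z, hz⟩
      change b α z = _ at h2
      rw [h2, Finset.sum_mul]
      refine Finset.sum_congr rfl fun i _ => ?_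
      rw [hbb i ⟨z, hz⟩]
      ring)
  intro α z hz
  have h2 := hγ α ⟨z, hz⟩
  change b α z = _ at h2
  rw [h2]
  refine Finset.sum_eq_zero fun i _ => ?_
  have h3 := congrFun (hind _ (h1 i)) α
  have h4 : γ α i = 0 := h3
  rw [h4, zero_mul]

/-- coordinates are independent over the ring of coefficients -/
theorem indep_over {N w : ℕ} {Ω S : Set ℂ} (hΩc : IsPreconnected Ω)
    (hSΩ : S ⊆ Ω) (hSo : IsOpen S) (hSne : S.Nonempty)
    {B : Subalgebra ℂ (ℂ → ℂ)} (hBan : ∀ b ∈ B, AnalyticOnNhd ℂ b Ω)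
    {K : Type} [Field K] [Algebra ℂ K] {y : Fin (N + 1) → K}
    {f : ℂ → Fin (N + 1) → ℂ} (hf : ∀ j, AnalyticOnNhd ℂ (fun w => f w j) Ω)
    (h : DenseOver Ω B (fun G => W602.GT.val y G = 0) f)
    {s : ℂ → ℂ} (hsB : s ∈ B) (hs : ∀ z ∈ S, s z ≠ 0)
    {F : Type} [Field F] [Algebra (Hol S) F] [IsFractionRing (Hol S) F] [Algebra ℂ F]
    [IsScalarTower ℂ (Hol S) F] (Xh : Fin (N + 1) → Hol S)
    (hXh : ∀ j (z : S), evz z (Xh j) = f z j) {i0 : Fin (N + 1)} (h0 : y i0 ≠ 0)
    (hx0 : algebraMap (Hol S) F (Xh i0) ≠ 0) {j : Fin w → Fin (N + 1)}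
    (hind : AlgebraicIndependent ℂ (fun l => y (j l) / y i0)) :
    AlgebraicIndependent (Algebra.adjoin ℂ (algebraMap (Hol S) F '' (locAlg B s hsB S hs : Set (Hol S))))
      (fun l => algebraMap (Hol S) F (Xh (j l)) / algebraMap (Hol S) F (Xh i0)) := by
  classical
  set R0 := Algebra.adjoin ℂ (algebraMap (Hol S) F '' (locAlg B s hsB S hs : Set (Hol S))) with hR0
  have hR0e : ∀ r : R0, ∃ x ∈ locAlg B s hsB S hs, algebraMap (Hol S) F x = (r : F) := by
    rintro ⟨r, hr⟩
    have h1 : R0 ≤ (locAlg B s hsB S hs).map (IsScalarTower.toAlgHom ℂ (Hol S) F) := by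
      rw [hR0, Algebra.adjoin_le_iff]
      rintro _ ⟨x, hx, rfl⟩
      exact ⟨x, hx, rfl⟩
    obtain ⟨x, hx, hxr⟩ := h1 hr
    exact ⟨x, hx, hxr⟩
  rw [AlgebraicIndependent, injective_iff_map_eq_zero]
  intro P hP
  by_contra hP0
  set δ := P.totalDegree with hδ
  let ms : (Fin w →₀ ℕ) → MvPolynomial (Fin (N + 1)) ℂ := fun α =>
    (∏ l, X (j l) ^ α l) * X i0 ^ (δ - α.degree)
  let A := {α // α ∈ P.support}
  have hdeg : ∀ α : A, (α : Fin w →₀ ℕ).degree ≤ δ := by
    intro α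
    exact le_totalDegree α.2
  have hms : ∀ α : A, (ms α).IsHomogeneous δ := by
    intro α
    have h1 : (∏ l, (X (j l) : MvPolynomial (Fin (N + 1)) ℂ) ^ (α : Fin w →₀ ℕ) l).IsHomogeneous
        (∑ l, (α : Fin w →₀ ℕ) l) := by
      apply IsHomogeneous.prod
      intro l _
      have := (isHomogeneous_X ℂ (j l)).pow ((α : Fin w →₀ ℕ) l)
      rwa [one_mul] at this
    have h2 : ((X i0 : MvPolynomial (Fin (N + 1)) ℂ) ^ (δ - (α : Fin w →₀ ℕ).degree)).IsHomogeneous
        (δ - (α : Fin w →₀ ℕ).degree) := by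
      have := (isHomogeneous_X ℂ i0).pow (δ - (α : Fin w →₀ ℕ).degree)
      rwa [one_mul] at this
    have h3 := h1.mul h2
    have h4 : ∑ l, (α : Fin w →₀ ℕ) l = (α : Fin w →₀ ℕ).degree :=
      (Finsupp.degree_eq_sum _).symm
    rw [h4, Nat.add_sub_cancel' (hdeg α)] at h3
    exact h3
  have hmsv : ∀ {L : Type} [Field L] [Algebra ℂ L] (x : Fin (N + 1) → L) (_ : x i0 ≠ 0) (α : A),
      aeval x (ms α) = x i0 ^ δ * ∏ l, (x (j l) / x i0) ^ (α : Fin w →₀ ℕ) l := by
    intro L _ _ x hx α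
    have h4 : ∑ l, (α : Fin w →₀ ℕ) l = (α : Fin w →₀ ℕ).degree :=
      (Finsupp.degree_eq_sum _).symm
    simp only [ms, map_mul, map_prod, map_pow, aeval_X, div_pow, Finset.prod_div_distrib]
    rw [Finset.prod_pow_eq_pow_sum, h4]
    have h5 : x i0 ^ δ = x i0 ^ (δ - (α : Fin w →₀ ℕ).degree) * x i0 ^ (α : Fin w →₀ ℕ).degree := by
      rw [← pow_add, Nat.sub_add_cancel (hdeg α)]
    rw [h5]
    have h6 := pow_ne_zero (α : Fin w →₀ ℕ).degree hx
    field_simp
  choose xx hxx hxxe using fun α : A => hR0e (P.coeff α)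
  choose bb hbb kk hkk using hxx
  have hrelF : ∑ α : A, algebraMap (Hol S) F (xx α) *
      aeval (fun i => algebraMap (Hol S) F (Xh i)) (ms α) = 0 := by
    have h1 : aeval (fun l => algebraMap (Hol S) F (Xh (j l)) / algebraMap (Hol S) F (Xh i0)) P =
        ∑ α : A, ((P.coeff α : R0) : F) * ∏ l, (algebraMap (Hol S) F (Xh (j l)) /
          algebraMap (Hol S) F (Xh i0)) ^ (α : Fin w →₀ ℕ) l := by
      rw [aeval_def, eval₂_eq', ← Finset.sum_coe_sort]
      rfl
    rw [hP] at h1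
    have h2 := congrArg (fun u => algebraMap (Hol S) F (Xh i0) ^ δ * u) h1
    simp only [mul_zero] at h2
    rw [h2, Finset.mul_sum]
    refine Finset.sum_congr rfl fun α _ => ?_
    rw [hmsv _ hx0, hxxe]
    ring
  have hrelS : ∀ z : S, ∑ α : A, evz z (xx α) * eval (f z) (ms α) = 0 := by
    intro z
    have h1 : ∑ α : A, xx α * aeval Xh (ms α) = 0 := by
      apply IsFractionRing.injective (Hol S) F
      rw [map_zero, ← hrelF, map_sum]
      refine Finset.sum_congr rfl fun α _ => ?_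
      rw [map_mul]
      congr 1
      exact (Pool.Agent.TH8.TEN.hol_val Xh (ms α)).symm
    have h2 := congrArg (evz z) h1
    rw [map_sum, map_zero] at h2
    rw [← h2]
    refine Finset.sum_congr rfl fun α _ => ?_
    have h3 := map_mul (evz z) (xx α) (aeval Xh (ms α))
    have h4 : f z = fun i => evz z (Xh i) := by
      funext i
      exact (hXh i z).symm
    rw [h3, Pool.Agent.TH8.TEN.hol_eval, h4]
  set KK := ∑ α : A, kk α with hKK
  have hkK : ∀ α, kk α ≤ KK := fun α =>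
    Finset.single_le_sum (f := kk) (fun _ _ => Nat.zero_le _) (Finset.mem_univ α)
  let b' : A → ℂ → ℂ := fun α => bb α * s ^ (KK - kk α)
  have hb' : ∀ α, b' α ∈ B := fun α => B.mul_mem (hbb α) (B.pow_mem hsB _)
  have hb'e : ∀ α (z : S), b' α z = s z ^ KK * evz z (xx α) := by
    intro α z
    have h1 := hs z z.2
    rw [hkk]
    simp only [b', Pi.mul_apply, Pi.pow_apply]
    rw [← Nat.sub_add_cancel (hkK α), pow_add, Nat.sub_add_cancel (hkK α)]
    field_simp
  have hfan : ∀ G : MvPolynomial (Fin (N + 1)) ℂ, AnalyticOnNhd ℂ (fun z => eval (f z) G) Ω := by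
    intro G
    have h1 : (fun z => eval (f z) G) = fun z => aeval (fun i => f z i) G := by
      funext z
      rw [MvPolynomial.aeval_eq_eval]
    rw [h1]
    exact AnalyticOnNhd.aeval_mvPolynomial hf G
  have hrelΩ : ∀ z ∈ Ω, ∑ α : A, b' α z * eval (f z) (ms α) = 0 := by
    have han : AnalyticOnNhd ℂ (fun z => ∑ α : A, b' α z * eval (f z) (ms α)) Ω := by
      intro z hz
      apply Finset.analyticAt_fun_sum
      intro α _
      exact (hBan _ (hb' α) z hz).mul (hfan _ z hz)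
    obtain ⟨z1, hz1⟩ := hSne
    have h2 := han.eqOn_zero_of_preconnected_of_eventuallyEq_zero hΩc (hSΩ hz1) (by
      filter_upwards [hSo.mem_nhds hz1] with z hz
      have h3 := hrelS ⟨z, hz⟩
      have h4 : ∑ α : A, b' α z * eval (f z) (ms α) =
          s z ^ KK * ∑ α : A, evz (⟨z, hz⟩ : S) (xx α) * eval (f z) (ms α) := by
        rw [Finset.mul_sum]
        refine Finset.sum_congr rfl fun α _ => ?_
        rw [hb'e α ⟨z, hz⟩]
        ring
      rw [h4]
      change _ * (∑ α : A, evz (⟨z, hz⟩ : S) (xx α) * eval (f z) (ms α)) = 0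
      rw [h3, mul_zero])
    exact fun z hz => h2 hz
  have hz := dense_clear h b' hb' (e := δ) (fun α : A => ms α) hms hrelΩ (by
    intro γ hγ
    have h1 : aeval (fun l => y (j l) / y i0)
        (∑ α : A, monomial (α : Fin w →₀ ℕ) (γ α)) = 0 := by
      have h2 : W602.GT.val y (∑ α : A, C (γ α) * ms α) = y i0 ^ δ *
          aeval (fun l => y (j l) / y i0) (∑ α : A, monomial (α : Fin w →₀ ℕ) (γ α)) := by
        unfold W602.GT.val
        rw [map_sum, map_sum, Finset.mul_sum]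
        refine Finset.sum_congr rfl fun α _ => ?_
        rw [map_mul, aeval_C, hmsv y h0, aeval_monomial, Finsupp.prod_fintype _ _ fun _ => pow_zero _]
        ring
      rw [h2] at hγ
      exact (mul_eq_zero.1 hγ).resolve_left (pow_ne_zero _ h0)
    have h2 := (injective_iff_map_eq_zero _).1 hind _ h1
    funext α
    have h3 := congrArg (coeff (α : Fin w →₀ ℕ)) h2
    rw [coeff_sum, coeff_zero, Finset.sum_eq_single α] at h3
    · rwa [coeff_monomial, if_pos rfl] at h3
    · intro β _ hβ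
      rw [coeff_monomial, if_neg fun e => hβ (Subtype.ext e)]
    · intro hn
      exact absurd (Finset.mem_univ _) hn)
  apply hP0
  ext α
  by_contra hα
  have hα' : α ∈ P.support := by
    rw [mem_support_iff]
    intro h1
    apply hα
    rw [h1]
    simp
  apply hα
  have h1 : xx ⟨α, hα'⟩ = 0 := by
    apply hol_ext
    intro z
    have h2 := hz ⟨α, hα'⟩ z (hSΩ z.2)
    rw [hb'e] at h2
    rw [map_zero]
    exact (mul_eq_zero.1 h2).resolve_left (pow_ne_zero _ (hs z z.2))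
  have h2 := hxxe ⟨α, hα'⟩
  rw [h1, map_zero] at h2
  rw [← h2]
  simp

end Pool.Agent.TH8.UNI
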