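import Pool.Agent.TH8.UNI.Multi

/-!
Families with many parameters: relations which are not homogeneous.
-/

set_option autoImplicit false

namespace Pool.Agent.TH8.UNI

open MvPolynomial Metric Set Filter Topology Pool.Agent.TH143 Pool.Agent.TH143.GT

variable {S : Set ℂ} {ι : Type} {n : ℕ}

/-- **The family with many parameters**, with all its relations. -/
theorem multi_family_all {N w : ℕ} (b : ι → ℂ → ℂ) (U : ℂ → Matrix (Fin n) (Fin n) ℂ)
    (V : ι ⊕ (Fin n × Fin n) → Hol S) (hV : ∀ (z : S) l, evz z (V l) = vv b U z l)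
    (E : Fin w → ℂ → Matrix (Fin n) (Fin n) ℂ) (η : Fin w → Matrix (Fin n) (Fin n) ℂ)
    (m : Fin w → ℕ) (p : Fin w → Fin n → Fin n → Polynomial ℂ)
    (hE : ∀ i, OneP b U S (E i) (η i) (m i) (p i)) (L : Fin (N + 1) → Fin n → Fin n → ℂ)
    (a : S) :
    ∃ W : Fin (N + 1) → MvPolynomial (Fin w) ℂ,
      (∀ x : Fin w → ℂ, (∀ i, x i ≠ 0) → ∀ R : MvPolynomial (Fin (N + 1)) ℂ,
        (∀ z ∈ S, eval (fun j => ∑ k, ∑ l, L j k l * U z k l) R = 0) →
          eval (fun j => (∏ i, x i ^ m i)⁻¹ * eval x (W j)) R = 0) ∧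
      (∀ R : MvPolynomial (Fin (N + 1)) ℂ, (∃ d, R.IsHomogeneous d) →
        (∀ z ∈ S, eval (fun j => ∑ k, ∑ l, L j k l * U z k l) R = 0) → aeval W R = 0) ∧
      (∀ j, eval (fun _ => 1) (W j) = ∑ k, ∑ l, L j k l * U a k l) ∧
      ∀ (i : Fin w) (g1 g0 : MvPolynomial (Fin (N + 1)) ℂ) (e : ℕ), g1.IsHomogeneous e →
        g0.IsHomogeneous e →
        eval (fun _ => 1) (pderiv i (aeval W g1) * aeval W g0 - aeval W g1 * pderiv i (aeval W g0)) =
        evz a (aeval V (mkDerivation ℂ (WW (η i)) (bind₁ (fun j => ∑ k, ∑ l, C (L j k l) *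
            X (Sum.inr (k, l))) g1)) * aeval V (bind₁ (fun j => ∑ k, ∑ l, C (L j k l) *
            X (Sum.inr (k, l))) g0) -
          aeval V (bind₁ (fun j => ∑ k, ∑ l, C (L j k l) * X (Sum.inr (k, l))) g1) *
            aeval V (mkDerivation ℂ (WW (η i)) (bind₁ (fun j => ∑ k, ∑ l, C (L j k l) *
            X (Sum.inr (k, l))) g0))) := by
  classical
  set Φ : Fin (N + 1) → MvPolynomial (ι ⊕ (Fin n × Fin n)) ℂ := fun j =>
    ∑ k, ∑ l, C (L j k l) * X (Sum.inr (k, l)) with hΦ
  have hΦe : ∀ (U' : ℂ → Matrix (Fin n) (Fin n) ℂ) (z : ℂ) (j : Fin (N + 1)),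
      eval (vv b U' z) (Φ j) = ∑ k, ∑ l, L j k l * U' z k l := by
    intro U' z j
    simp only [hΦ, map_sum, map_mul, eval_C, eval_X, vv, Sum.elim_inr]
  have hqe' : ∀ (R : MvPolynomial (Fin (N + 1)) ℂ) (x : ι ⊕ (Fin n × Fin n) → ℂ),
      eval x (bind₁ Φ R) = eval (fun j => eval x (Φ j)) R := by
    intro R x
    rw [eval, eval₂Hom_bind₁]
    rfl
  have hVe : ∀ (z : S), (fun l => evz z (V l)) = vv b U z := fun z => funext fun l => hV z l
  have hVP : ∀ (z : S) (P : MvPolynomial (ι ⊕ (Fin n × Fin n)) ℂ),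
      evz z (aeval V P) = eval (vv b U z) P := by
    intro z P
    have h4 := MvPolynomial.comp_aeval_apply (f := V) (evz z) P
    rw [h4, ← MvPolynomial.aeval_eq_eval, hVe]
  -- the product of the families
  let Mp : Fin w → Matrix (Fin n) (Fin n) (MvPolynomial (Fin w) ℂ) := fun i =>
    Matrix.of fun k l => Polynomial.aeval (X i : MvPolynomial (Fin w) ℂ) (p i k l)
  let PM := (List.ofFn Mp).prod
  let Eb : (Fin w → ℂ) → Matrix (Fin n) (Fin n) ℂ := fun x => (List.ofFn fun i => E i (x i)).prod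
  have hPM : ∀ x : Fin w → ℂ, (∀ i, x i ≠ 0) → PM.map (eval x) =
      (∏ i, x i ^ m i) • Eb x := by
    intro x hx
    have h1 : PM.map (eval x) = (List.ofFn fun i => (Mp i).map (eval x)).prod :=
      prod_map ((eval x).mapMatrix : Matrix (Fin n) (Fin n) (MvPolynomial (Fin w) ℂ) →+* _) Mp
    rw [h1, ← prod_smul]
    congr 2
    funext i
    ext k l
    rw [Matrix.map_apply, Matrix.smul_apply, smul_eq_mul, (hE i).laur (x i) (hx i)]
    simp only [Mp, Matrix.of_apply]
    rw [Polynomial.aeval_def, Polynomial.hom_eval₂, eval_X, Polynomial.eval₂_eq_eval_map]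
    congr 1
    conv_rhs => rw [← Polynomial.map_id (p := p i k l)]
    congr 1
    ext c
    simp
  have hEb : ∀ x : Fin w → ℂ, (∀ i, x i ≠ 0) → Gal b U S (Eb x) := by
    intro x hx
    exact prod_ind (Gal b U S) Gal.one (fun _ _ h1 h2 => h1.mul h2) fun i => (hE i).gal _ (hx i)
  have hEb1 : Eb (fun _ => 1) = 1 := prod_ones fun i => (hE i).one
  have hEbu : ∀ i t, Eb (Function.update (fun _ => 1) i t) = E i t := by
    intro i t
    have h1 := prod_single (g := fun j => E j (Function.update (fun _ => (1 : ℂ)) i t j)) i (by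
      intro j hj
      rw [Function.update_of_ne hj]
      exact (hE j).one)
    simp only [Eb]
    rw [h1, Function.update_self]
  let W : Fin (N + 1) → MvPolynomial (Fin w) ℂ := fun j =>
    ∑ k, ∑ l, C (L j k l) * ∑ k', C (U a k k') * PM k' l
  have hW : ∀ x : Fin w → ℂ, (∀ i, x i ≠ 0) → ∀ j, eval x (W j) =
      (∏ i, x i ^ m i) * eval (vv b (fun z => U z * Eb x) a) (Φ j) := by
    intro x hx j
    rw [hΦe]
    simp only [W, map_sum, map_mul, eval_C, Finset.mul_sum, Matrix.mul_apply]
    refine Finset.sum_congr rfl fun k _ => Finset.sum_congr rfl fun l _ =>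
      Finset.sum_congr rfl fun k' _ => ?_
    have h1 : eval x (PM k' l) = (∏ i, x i ^ m i) * Eb x k' l := by
      have := congrFun (congrFun (hPM x hx) k') l
      rw [Matrix.map_apply, Matrix.smul_apply, smul_eq_mul] at this
      exact this
    rw [h1]
    ring
  have hWR : ∀ (R : MvPolynomial (Fin (N + 1)) ℂ) (dR : ℕ), R.IsHomogeneous dR →
      ∀ x : Fin w → ℂ, (∀ i, x i ≠ 0) → eval x (aeval W R) =
        (∏ i, x i ^ m i) ^ dR * eval (vv b (fun z => U z * Eb x) a) (bind₁ Φ R) := by
    intro R dR hR x hx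
    rw [hqe', ← eval_smul_homog hR]
    have h4 := MvPolynomial.comp_aeval_apply (f := W) (aeval x : MvPolynomial (Fin w) ℂ →ₐ[ℂ] ℂ) R
    rw [← MvPolynomial.aeval_eq_eval, ← MvPolynomial.aeval_eq_eval]
    refine Eq.trans h4 ?_
    congr 2
    funext j
    exact hW x hx j
  refine ⟨W, ?_, ?_, ?_, ?_⟩
  · intro x hx R hRz
    have h0 : (∏ i, x i ^ m i) ≠ 0 := Finset.prod_ne_zero_iff.2 fun i _ => pow_ne_zero _ (hx i)
    have h1 : Rel (vv b U) S (bind₁ Φ R) := by
      intro z hz
      rw [hqe']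
      have := hRz z hz
      simp only [hΦe]
      exact this
    have h2 := hEb x hx _ h1 a a.2
    rw [hqe'] at h2
    rw [← h2]
    congr 2
    funext j
    rw [hW x hx j, inv_mul_cancel_left₀ h0]
  · rintro R ⟨dR, hR⟩ hRz
    apply zero_of_units
    intro x hx
    rw [hWR R dR hR x hx]
    have h1 : Rel (vv b U) S (bind₁ Φ R) := by
      intro z hz
      rw [hqe']
      have := hRz z hz
      simp only [hΦe]
      exact this
    rw [hEb x hx _ h1 a a.2, mul_zero]
  · intro j
    rw [hW (fun _ => 1) (fun _ => one_ne_zero) j, hEb1]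
    simp only [Matrix.mul_one, one_pow, Finset.prod_const_one, one_mul]
    exact hΦe U a j
  · intro i g1 g0 e hg1 hg0
    have hval : ∀ (R : MvPolynomial (Fin (N + 1)) ℂ) (dR : ℕ), R.IsHomogeneous dR →
        eval (fun _ => 1) (aeval W R) = eval (vv b U a) (bind₁ Φ R) := by
      intro R dR hR
      rw [hWR R dR hR (fun _ => 1) (fun _ => one_ne_zero), hEb1]
      simp only [Matrix.mul_one, one_pow, Finset.prod_const_one, one_mul]
    have hder : ∀ (R : MvPolynomial (Fin (N + 1)) ℂ) (dR : ℕ), R.IsHomogeneous dR →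
        eval (fun _ => 1) (pderiv i (aeval W R)) = (m i * dR : ℕ) * eval (vv b U a) (bind₁ Φ R) +
          eval (vv b U a) (mkDerivation ℂ (WW (η i)) (bind₁ Φ R)) := by
      intro R dR hR
      have h1 := pderiv_eval (aeval W R) i
      have h2 : (fun t => eval (Function.update (fun _ => 1) i t) (aeval W R)) =ᶠ[𝓝 1]
          fun t => t ^ (m i * dR) * eval (vv b (fun z => U z * E i t) a) (bind₁ Φ R) := by
        filter_upwards [isOpen_ne.mem_nhds (one_ne_zero (α := ℂ))] with t ht
        have hx : ∀ j, Function.update (fun _ => (1 : ℂ)) i t j ≠ 0 := by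
          intro j
          by_cases hj : j = i
          · subst hj
            rw [Function.update_self]
            exact ht
          · rw [Function.update_of_ne hj]
            exact one_ne_zero
        rw [hWR R dR hR _ hx, hEbu, pow_mul]
        congr 2
        rw [Finset.prod_eq_single i]
        · rw [Function.update_self]
        · intro j _ hj
          rw [Function.update_of_ne hj, one_pow]
        · intro h
          exact absurd (Finset.mem_univ _) h
      have h3 : vv b (fun z => U z * E i 1) a = vv b U a := by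
        simp only [(hE i).one, Matrix.mul_one]
      have h4 := hasDerivAt_sol (WW (η i)) (fun x => vv b (fun z => U z * E i x) a) 1 (by
        intro l
        rw [h3]
        rcases l with i' | ⟨i', j⟩
        · simp only [vv, Sum.elim_inl, WW, map_zero]
          exact hasDerivAt_const _ _
        · simp only [vv, Sum.elim_inr, WW, map_sum, map_mul, eval_X, eval_C, Matrix.mul_apply]
          apply HasDerivAt.fun_sum
          intro k _
          exact ((hE i).der k j).const_mul (U a i' k)) (bind₁ Φ R)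
      rw [h3] at h4
      have h5 := (hasDerivAt_pow (m i * dR) (1 : ℂ)).mul h4
      have h6 := (h1.congr_of_eventuallyEq h2.symm).unique h5
      rw [h6]
      rw [h3]
      simp
    rw [map_sub, map_mul, map_mul, hval g1 e hg1, hval g0 e hg0, hder g1 e hg1, hder g0 e hg0,
      map_sub, map_mul, map_mul, hVP, hVP, hVP, hVP]
    ring

end Pool.Agent.TH8.UNI
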