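import Pool.Agent.TH8.TEN.Emb

/-!
One-parameter families in the group of symmetries of a linear system.
-/

set_option autoImplicit false

namespace Pool.Agent.TH8.UNI

open MvPolynomial Metric Set Filter Topology Pool.Agent.TH143 Pool.Agent.TH143.GT

variable {S : Set ℂ} {ι : Type} {n : ℕ}

/-- the right translation by `g` maps the point to a point with the same relations -/
def Gal (b : ι → ℂ → ℂ) (U : ℂ → Matrix (Fin n) (Fin n) ℂ) (S : Set ℂ)
    (g : Matrix (Fin n) (Fin n) ℂ) : Prop :=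
  ∀ P : MvPolynomial (ι ⊕ (Fin n × Fin n)) ℂ, Rel (vv b U) S P →
    Rel (vv b fun z => U z * g) S P

theorem Gal.one {b : ι → ℂ → ℂ} {U : ℂ → Matrix (Fin n) (Fin n) ℂ} : Gal b U S 1 := by
  intro P hP
  simpa only [Matrix.mul_one] using hP

theorem Gal.mul {b : ι → ℂ → ℂ} {U : ℂ → Matrix (Fin n) (Fin n) ℂ}
    {g h : Matrix (Fin n) (Fin n) ℂ} (hg : Gal b U S g) (hh : Gal b U S h) :
    Gal b U S (g * h) := by
  intro P hP
  let T : ι ⊕ (Fin n × Fin n) → MvPolynomial (ι ⊕ (Fin n × Fin n)) ℂ :=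
    Sum.elim (fun i => X (Sum.inl i)) (fun p => ∑ k, X (Sum.inr (p.1, k)) * C (h k p.2))
  have hT : ∀ (U' : ℂ → Matrix (Fin n) (Fin n) ℂ) (z : ℂ),
      eval (vv b U' z) (bind₁ T P) = eval (vv b (fun z => U' z * h) z) P := by
    intro U' z
    rw [eval, eval, eval₂Hom_bind₁]
    congr 2
    funext l
    rcases l with i | ⟨i, j⟩
    · simp [T, vv]
    · simp [T, vv, Matrix.mul_apply]
  have h1 : Rel (vv b U) S (bind₁ T P) := by
    intro z hz
    rw [hT]
    exact hh P hP z hz
  intro z hz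
  have h2 := hg _ h1 z hz
  rw [hT] at h2
  simpa only [Matrix.mul_assoc] using h2

/-- **One-parameter families of symmetries**, in a given direction. -/
theorem one_param (hS : IsOpen S) (hSc : IsPreconnected S) (hne : S.Nonempty)
    {K : Type} [Field K] [Algebra (Hol S) K] [IsFractionRing (Hol S) K]
    (b : ι → ℂ → ℂ) (hb : ∀ i, AnalyticOnNhd ℂ (b i) S) (d : ι → ι)
    (hd : ∀ i, ∀ z ∈ S, HasDerivAt (b i) (b (d i) z) z)
    (A : Fin n → Fin n → ι) (U : ℂ → Matrix (Fin n) (Fin n) ℂ)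
    (hU : ∀ z ∈ S, ∀ i j, HasDerivAt (fun w => U w i j) (∑ k, b (A i k) z * U z k j) z)
    (hdet : ∀ z ∈ S, (U z).det ≠ 0)
    (B : Subalgebra ℂ (Hol S)) (hB : ∀ i, toHol (b i) (hb i) ∈ B)
    (V : ι ⊕ (Fin n × Fin n) → Hol S) (hV : ∀ (z : S) l, evz z (V l) = vv b U z l)
    (D : K → K) (hDadd : ∀ x y, D (x + y) = D x + D y)
    (hDmul : ∀ x y, D (x * y) = x * D y + y * D x)
    (hDB : ∀ x ∈ B, D (algebraMap (Hol S) K x) = 0) {q : ℕ} (c : Fin q → Hol S)
    (G0 G1 : Fin q → MvPolynomial (ι ⊕ (Fin n × Fin n)) ℂ)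
    (hG : ∑ j, algebraMap (Hol S) K (c j) * (D (algebraMap (Hol S) K (aeval V (G1 j))) *
        algebraMap (Hol S) K (aeval V (G0 j)) - algebraMap (Hol S) K (aeval V (G1 j)) *
        D (algebraMap (Hol S) K (aeval V (G0 j)))) ≠ 0) :
    ∃ (E : ℂ → Matrix (Fin n) (Fin n) ℂ) (η : Matrix (Fin n) (Fin n) ℂ) (m : ℕ)
      (p : Fin n → Fin n → Polynomial ℂ), E 1 = 1 ∧
      (∀ x, x ≠ 0 → ∀ k l, x ^ m * E x k l = (p k l).eval x) ∧
      (∀ k l, HasDerivAt (fun x => E x k l) (η k l) 1) ∧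
      (∀ x, x ≠ 0 → Gal b U S (E x)) ∧
      ∑ j, c j * (aeval V (mkDerivation ℂ (WW η) (G1 j)) * aeval V (G0 j) -
        aeval V (G1 j) * aeval V (mkDerivation ℂ (WW η) (G0 j))) ≠ 0 := by
  classical
  set v := vv b U with hv
  have hsol : Sol (EE d A) v S := by
    intro z hz l
    rcases l with i | ⟨i, j⟩
    · have := hd i z hz
      simpa [EE, v, vv] using this
    · have := hU z hz i j
      simpa [EE, v, vv] using this
  have hVe : ∀ (z : S), (fun l => evz z (V l)) = v z := fun z => funext fun l => hV z l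
  have hVP : ∀ (z : S) (P : MvPolynomial (ι ⊕ (Fin n × Fin n)) ℂ),
      evz z (aeval V P) = eval (v z) P := by
    intro z P
    have h4 := MvPolynomial.comp_aeval_apply (f := V) (evz z) P
    rw [h4, ← MvPolynomial.aeval_eq_eval, hVe]
  have hrel : ∀ P, Rel v S P ↔ aeval V P = 0 := by
    intro P
    constructor
    · intro h
      exact hol_ext fun z => by rw [hVP, map_zero]; exact h z z.2
    · intro h z hz
      rw [← hVP ⟨z, hz⟩, h, map_zero]
  obtain ⟨a, M, haM⟩ := Pool.Agent.TH8.TEN.exists_tangent (hol_domain hSc hne) (K := K) B V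
    (fun i => by
      have h1 : V (Sum.inl i) = toHol (b i) (hb i) := hol_ext fun z => hV z _
      rw [h1]
      exact hB i) D hDadd hDmul hDB c G0 G1 hG
  set β : Matrix (Fin n) (Fin n) ℂ := (U a)⁻¹ * Matrix.of fun i j => M (i, j) with hβ
  have hUβ : ∀ p : Fin n × Fin n, (U a * β) p.1 p.2 = M p := by
    intro p
    rw [hβ, ← Matrix.mul_assoc, Matrix.mul_nonsing_inv _ ((hdet a a.2).isUnit), Matrix.one_mul]
    rfl
  obtain ⟨haP, haG⟩ := haM (WW β) (fun i => by simp [WW]) (fun p => by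
    rw [← hUβ p, Matrix.mul_apply, hVe]
    simp only [WW, Sum.elim_inr, map_sum, map_mul, eval_X, eval_C]
    rfl)
  rw [hVe] at haG haP
  have hδ : ∀ P, Rel v S P → Rel v S (mkDerivation ℂ (WW β) P) :=
    rel_of_point hS hSc hsol (comm_EW d A β) a.2 (fun P hP => haP P ((hrel P).mp hP))
  -- the one-parameter group
  obtain ⟨ex, he0, he, hEP⟩ := exists_exp_flow β
  let y : ℂ → ℂ → ι ⊕ (Fin n × Fin n) → ℂ := fun z t =>
    Sum.elim (fun i => b i z) (fun p => (U z * ex t) p.1 p.2)
  have hy0 : ∀ z, y z 0 = v z := by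
    intro z
    simp only [y, he0, Matrix.mul_one]
    rfl
  have hysol : ∀ z, Sol (WW β) (y z) univ := by
    intro z t _ l
    rcases l with i | ⟨i, j⟩
    · simp only [y, Sum.elim_inl, WW, map_zero]
      exact hasDerivAt_const t _
    · simp only [y, Sum.elim_inr, WW, map_sum, map_mul, eval_X, eval_C]
      have h1 : HasDerivAt (fun s => (U z * ex s) i j) (∑ k, U z i k * (ex t * β) k j) t := by
        simp only [Matrix.mul_apply]
        apply HasDerivAt.fun_sum
        intro k _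
        have := (he t k j).const_mul (U z i k)
        rw [Matrix.mul_apply] at this
        exact this
      refine h1.congr_deriv ?_
      rw [← Matrix.mul_apply, ← Matrix.mul_assoc, Matrix.mul_apply]
  have hyP : ∀ z ∈ S, ∀ P, Rel v S P → ∀ t, eval (y z t) P = 0 := fun z hz P hP t =>
    rel_flow hδ hz (y z) (hysol z) (hy0 z) P hP t
  -- common exponents
  let G : (Fin n × Fin n) → ℂ → ℂ := fun p t => ex t p.1 p.2
  have hGEP : ∀ o, EP (G o) := fun p => hEP p.1 p.2
  obtain ⟨m, g, P, hg, hP⟩ := EP.common G hGEP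
  -- the coordinates as functions of the exponentials
  let T : ℂ → ι ⊕ (Fin n × Fin n) → MvPolynomial (Fin (m + 1)) ℂ := fun z =>
    Sum.elim (fun i => C (b i z)) (fun p => ∑ k, C (U z p.1 k) * P (k, p.2))
  let Y : ℂ → (Fin (m + 1) → ℂ) → ι ⊕ (Fin n × Fin n) → ℂ := fun z x l => eval x (T z l)
  have hYy : ∀ z t, Y z (Pool.Agent.H159R3.Exp.vec g t) = y z t := by
    intro z t
    funext l
    rcases l with i | ⟨i, j⟩
    · simp [Y, T, y]
    · simp only [Y, T, y, Sum.elim_inr, map_sum, map_mul, eval_C, ← hP, Matrix.mul_apply]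
      rfl
  have hYT : ∀ z x (R : MvPolynomial (ι ⊕ (Fin n × Fin n)) ℂ),
      eval (Y z x) R = eval x (bind₁ (T z) R) := by
    intro z x R
    rw [eval, eval, eval₂Hom_bind₁]
    rfl
  -- the direction
  set v0 : Fin (m + 1) → ℂ := Pool.Agent.H159R3.Exp.vec g 0 with hv0
  have hvd : ∀ l, HasDerivAt (fun z => Pool.Agent.H159R3.Exp.vec g z l)
      ((Fin.cons 1 fun i => Complex.exp (g i 0) * deriv (g i) 0 : Fin (m + 1) → ℂ) l) 0 := by
    intro l
    refine Fin.cases ?_ (fun i => ?_) l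
    · simpa [Pool.Agent.H159R3.Exp.vec] using hasDerivAt_id' (0 : ℂ)
    · simpa [Pool.Agent.H159R3.Exp.vec] using ((hg i) 0).hasDerivAt.cexp
  have hYv : Y a v0 = v a := by rw [hv0, hYy, hy0]
  have hder : ∀ R : MvPolynomial (ι ⊕ (Fin n × Fin n)) ℂ,
      eval (v a) (mkDerivation ℂ (WW β) R) = ∑ l, eval v0 (pderiv l (bind₁ (T a) R)) *
        (Fin.cons 1 fun i => Complex.exp (g i 0) * deriv (g i) 0 : Fin (m + 1) → ℂ) l := by
    intro R
    have h1 := hasDerivAt_sol (WW β) (y a) 0 (hysol a 0 (mem_univ 0)) R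
    have h2 := Pool.Agent.H159R3.Exp.hasDerivAt_eval (Pool.Agent.H159R3.Exp.vec g) _ 0 hvd
      (bind₁ (T a) R)
    have h3 : (fun t => eval (y a t) R) = fun t =>
        eval (Pool.Agent.H159R3.Exp.vec g t) (bind₁ (T a) R) := by
      funext t
      rw [← hYT, hYy]
    rw [h3, hy0] at h1
    exact h1.unique h2
  obtain ⟨ξ, ξ', ea, pp, hξp, hξ1, hξR, hξd, hξn⟩ := exists_dir g hg
    (fun l => ∑ j, evz a (c j) *
      (eval v0 (pderiv l (bind₁ (T a) (G1 j))) * eval (v a) (G0 j) -
      eval (v a) (G1 j) * eval v0 (pderiv l (bind₁ (T a) (G0 j))))) (by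
      intro h0
      refine haG ?_
      simp only [hder]
      refine Eq.trans ?_ h0
      simp only [Finset.sum_mul]
      rw [Finset.sum_comm]
      refine Finset.sum_congr rfl fun j _ => ?_
      rw [Finset.mul_sum, ← Finset.sum_sub_distrib, Finset.mul_sum]
      exact Finset.sum_congr rfl fun l _ => by ring)
  -- the family
  let E : ℂ → Matrix (Fin n) (Fin n) ℂ := fun x => Matrix.of fun k l => eval (ξ x) (P (k, l))
  let η : Matrix (Fin n) (Fin n) ℂ := Matrix.of fun k l => ∑ i, eval (ξ 1) (pderiv i (P (k, l))) * ξ' i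
  have hE1 : E 1 = 1 := by
    ext k l
    simp only [E, Matrix.of_apply]
    rw [hξ1, ← hP]
    simp only [G, he0]
  have hEd : ∀ k l, HasDerivAt (fun x => E x k l) (η k l) 1 := by
    intro k l
    exact Pool.Agent.H159R3.Exp.hasDerivAt_eval ξ ξ' 1 hξd (P (k, l))
  have hPLξ : ∀ l, PL fun (_ : S) x => ξ x l := fun l => PL.laur fun x hx => hξp x hx l
  have hPLP : ∀ o, PL fun (_ : S) x => eval (ξ x) (P o) := fun o => PL.eval hPLξ (P o)
  obtain ⟨mE, pE, hpE⟩ := PL.common hPLP
  have hYE : ∀ z x, Y z (ξ x) = vv b (fun z => U z * E x) z := by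
    intro z x
    funext l
    rcases l with i | ⟨i, j⟩
    · simp [Y, T, vv]
    · simp only [Y, T, vv, Sum.elim_inr, map_sum, map_mul, eval_C, Matrix.mul_apply, E,
        Matrix.of_apply]
  refine ⟨E, η, mE, fun k l => (pE (k, l)).map (evz a : Hol S →+* ℂ), hE1, ?_, hEd, ?_, ?_⟩
  · intro x hx k l
    rw [← evp_eq, ← hpE a x hx (k, l)]
    rfl
  · intro x hx R hR z hz
    rw [← hYE, hYT]
    apply hξR _ _ x hx
    intro t
    rw [← hYT, hYy]
    exact hyP z hz R hR t
  · intro h0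
    apply hξn
    have hdR : ∀ R : MvPolynomial (ι ⊕ (Fin n × Fin n)) ℂ,
        eval (v a) (mkDerivation ℂ (WW η) R) =
          ∑ l, eval v0 (pderiv l (bind₁ (T a) R)) * ξ' l := by
      intro R
      have h1 := Pool.Agent.H159R3.Exp.hasDerivAt_eval ξ ξ' 1 hξd (bind₁ (T a) R)
      have h2 : vv b (fun z => U z * E 1) a = v a := by
        simp only [hE1, Matrix.mul_one]
        rfl
      have h3 := hasDerivAt_sol (WW η) (fun x => vv b (fun z => U z * E x) a) 1 (by
        intro l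
        rw [h2]
        rcases l with i | ⟨i, j⟩
        · simp only [vv, Sum.elim_inl, WW, map_zero]
          exact hasDerivAt_const _ _
        · simp only [vv, Sum.elim_inr, WW, map_sum, map_mul, eval_X, eval_C, Matrix.mul_apply]
          apply HasDerivAt.fun_sum
          intro k _
          exact (hEd k j).const_mul (U a i k)) R
      have h4 : (fun x => eval (vv b (fun z => U z * E x) a) R) =
          fun x => eval (ξ x) (bind₁ (T a) R) := by
        funext x
        rw [← hYE, hYT]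
      rw [h4] at h3
      have h5 := h3.unique h1
      rw [h2, hξ1] at h5
      exact h5
    have h6 := congrArg (evz a) h0
    rw [map_sum, map_zero] at h6
    rw [← h6]
    simp only [Finset.sum_mul]
    rw [Finset.sum_comm]
    refine Finset.sum_congr rfl fun j _ => ?_
    rw [map_mul, map_sub, map_mul, map_mul, hVP, hVP, hVP, hVP, hdR, hdR, Finset.sum_mul,
      Finset.mul_sum, ← Finset.sum_sub_distrib, Finset.mul_sum]
    exact Finset.sum_congr rfl fun l _ => by ring

end Pool.Agent.TH8.UNI
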