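import Pool.Agent.TH8.UNI.Gen
import Pool.Agent.TH8.UNI.MultiAll

/-!
Parametrizations of quasi-projective varieties by open subsets of affine space.
-/

set_option autoImplicit false

open MvPolynomial Metric Set Filter Topology Pool.Agent.TH143 Pool.Agent.TH143.GT
  Pool.Agent.W602.GT

namespace Pool.Agent.TH8.UNI

/-- **The parametrization theorem.** Let `f` be a holomorphic curve in the projective variety with
generic point `y` outside the hypersurface `Q = 0`. Assume that the homogeneous coordinates of `f`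
and the function `1 / Q(f)` satisfy linear differential equations over a differential ring `B` of
holomorphic functions on `Ω`, and that `f` is dense over `B`. Then there is a polynomial map from
the affine space of dimension `w` to the variety, whose Jacobian is nonzero in the point
`(1, ..., 1)`, and which maps the torus to the complement of the hypersurface. -/
theorem uni_log {Ω : Set ℂ} (hΩ : IsOpen Ω) (hΩc : IsPreconnected Ω) (hne : Ω.Nonempty)
    {B : Subalgebra ℂ (ℂ → ℂ)} (hB : DiffRing Ω B) {N : ℕ}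
    (f : ℂ → Fin (N + 1) → ℂ) (hf : ∀ j, AnalyticOnNhd ℂ (fun w => f w j) Ω)
    (hlin : ∀ j, LinOver Ω B (fun w => f w j)) (h : ℂ → ℂ) (hh : AnalyticOnNhd ℂ h Ω)
    (hhl : LinOver Ω B h) {Q : MvPolynomial (Fin (N + 1)) ℂ} {q : ℕ} (hQ : Q.IsHomogeneous q)
    (hQh : ∀ z ∈ Ω, eval (f z) Q * h z = 1) {K : Type} [Field K] [Algebra ℂ K] {w : ℕ}
    {y : Fin (N + 1) → K} (hpt : GenPt f Ω K w y)
    (hd : DenseOver Ω B (fun G => W602.GT.val y G = 0) f) :
    ∃ (i0 : Fin (N + 1)) (j : Fin w → Fin (N + 1)) (W : Fin (N + 1) → MvPolynomial (Fin w) ℂ),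
      y i0 ≠ 0 ∧ IsTranscendenceBasis ℂ (fun l => y (j l) / y i0) ∧
      (∀ G : MvPolynomial (Fin (N + 1)) ℂ, IsForm G → W602.GT.val y G = 0 → aeval W G = 0) ∧
      eval (fun _ => 1) (W i0) ≠ 0 ∧
      (Matrix.of fun i l => eval (fun _ => 1)
        (pderiv i (W (j l)) * W i0 - W (j l) * pderiv i (W i0))).det ≠ 0 ∧
      ∀ x : Fin w → ℂ, (∀ i, x i ≠ 0) → eval x (aeval W Q) ≠ 0 := by
  classical
  let f' : ℂ → Fin (N + 1 + 1) → ℂ := fun z => Fin.snoc (α := fun _ => ℂ) (f z) (h z)
  have hfc : ∀ z j, f' z (Fin.castSucc j) = f z j := fun z j => Fin.snoc_castSucc _ _ _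
  have hfl : ∀ z, f' z (Fin.last (N + 1)) = h z := fun z => Fin.snoc_last _ _
  obtain ⟨z0, r, s, hsB, hs, n, bb, hbb, dd, A, U, L, hr, hSΩ, hdd, hU, hdet, hloc, hfU⟩ :=
    exists_setup hΩ hΩc hne hB f' (by
      intro j
      refine Fin.lastCases ?_ (fun j => ?_) j
      · simp only [hfl]
        exact hh
      · simp only [hfc]
        exact hf j) (by
      intro j
      refine Fin.lastCases ?_ (fun j => ?_) j
      · simp only [hfl]
        exact hhl
      · simp only [hfc]
        exact hlin j)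
  set S := ball z0 r with hS
  have hSo : IsOpen S := isOpen_ball
  have hSc : IsPreconnected S := (convex_ball z0 r).isPreconnected
  have hSne : S.Nonempty := ⟨z0, mem_ball_self hr⟩
  have hdom : IsDomain (Hol S) := hol_domain hSc hSne
  let F := FractionRing (Hol S)
  -- the point
  have hUan : ∀ l : (B × ℕ) ⊕ (Fin n × Fin n), AnalyticOnNhd ℂ (fun z => vv bb U z l) S := by
    intro l
    rcases l with p | ⟨i, j⟩
    · exact hbb p
    · have h1 : DifferentiableOn ℂ (fun w => U w i j) S := fun z hz =>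
        (hU z hz i j).differentiableAt.differentiableWithinAt
      exact h1.analyticOnNhd hSo
  let V : (B × ℕ) ⊕ (Fin n × Fin n) → Hol S := fun l => toHol (fun z => vv bb U z l) (hUan l)
  have hV : ∀ (z : S) l, evz z (V l) = vv bb U z l := fun z l => rfl
  let Xh : Fin (N + 1) → Hol S := fun j => toHol (fun z => f z j) ((hf j).mono hSΩ)
  have hXh : ∀ j (z : S), evz z (Xh j) = f z j := fun j z => rfl
  let Φ : Fin (N + 1 + 1) → MvPolynomial ((B × ℕ) ⊕ (Fin n × Fin n)) ℂ := fun j =>
    ∑ k, ∑ l, C (L j k l) * X (Sum.inr (k, l))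
  have hVP : ∀ (z : S) (P : MvPolynomial ((B × ℕ) ⊕ (Fin n × Fin n)) ℂ),
      evz z (aeval V P) = eval (vv bb U z) P := by
    intro z P
    have h4 := MvPolynomial.comp_aeval_apply (f := V) (evz z) P
    rw [h4, ← MvPolynomial.aeval_eq_eval]
    rfl
  have hXV : ∀ j : Fin (N + 1), aeval V (Φ (Fin.castSucc j)) = Xh j := by
    intro j
    apply hol_ext
    intro z
    rw [hVP, hXh, ← hfc, hfU z z.2]
    simp only [Φ, map_sum, map_mul, eval_C, eval_X, vv, Sum.elim_inr]
  obtain ⟨i0, h0⟩ : ∃ i, y i ≠ 0 := Function.ne_iff.1 hpt.ne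
  obtain ⟨j, hj⟩ := exists_coord_basis hpt.gen hpt.dim h0
  have hXh0 : Xh i0 ≠ 0 := by
    intro h1
    apply h0
    have h2 := (hpt.rel (X i0) ⟨1, isHomogeneous_X ℂ i0⟩).2 (by
      intro z hz
      rw [eval_X]
      have h3 := (hf i0).eqOn_zero_of_preconnected_of_eventuallyEq_zero hΩc
        (hSΩ (mem_ball_self hr)) (by
          filter_upwards [hSo.mem_nhds (mem_ball_self hr)] with z hz
          have := congrArg (evz (⟨z, hz⟩ : S)) h1
          rw [hXh, map_zero] at this
          exact this)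
      exact h3 hz)
    unfold W602.GT.val at h2
    rwa [aeval_X] at h2
  set aM := algebraMap (Hol S) F with haM
  have haMi : Function.Injective aM := IsFractionRing.injective (Hol S) F
  have hx0 : aM (Xh i0) ≠ 0 := by
    rw [Ne, map_eq_zero_iff aM haMi]
    exact hXh0
  have hind1 := indep_over hΩc hSΩ hSo hSne hB.an hf hd hsB hs (F := F) Xh hXh h0 hx0 hj.1
  let E := IntermediateField.adjoin ℂ (aM '' (locAlg B s hsB S hs : Set (Hol S)))
  have hind2 : AlgebraicIndependent E (fun l => aM (Xh (j l)) / aM (Xh i0)) :=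
    IntermediateField.algebraicIndependent_adjoin_iff.2 hind1
  obtain ⟨D, hD⟩ := dual_der hind2
  have hGX : ∀ i : Fin (N + 1), aeval V (bind₁ Φ (X (Fin.castSucc i))) = Xh i := by
    intro i
    rw [bind₁_X_right, hXV]
  obtain ⟨Ef, η, m, p, hE, hEd⟩ := all_dirs hSo hSc hSne (K := F) bb hbb dd hdd A U hU hdet
    (locAlg B s hsB S hs) hloc V hV (fun i => D i) (fun i x y => (D i).map_add x y)
    (fun i x y => by
      rw [(D i).leibniz, smul_eq_mul, smul_eq_mul])
    (fun i x hx => (D i).map_algebraMap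
      (⟨aM x, IntermediateField.subset_adjoin ℂ _ ⟨x, hx, rfl⟩⟩ : E))
    (fun _ => bind₁ Φ (X (Fin.castSucc i0))) (fun l => bind₁ Φ (X (Fin.castSucc (j l))))
    (fun _ => aM (Xh i0) ^ 2) (fun _ => pow_ne_zero 2 hx0) (by
      intro i l
      rw [hGX, hGX]
      have h1 := der_quot (D i) (a := aM (Xh (j l))) hx0
      rw [hD] at h1
      refine h1.trans ?_
      rw [mul_ite, mul_one, mul_zero])
  set Δ := (Matrix.of fun i l => dir V (fun _ => bind₁ Φ (X (Fin.castSucc i0)))
    (fun l => bind₁ Φ (X (Fin.castSucc (j l)))) (η i) l).det with hΔ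
  obtain ⟨a, ha⟩ : ∃ a : S, evz a (Δ * Xh i0) ≠ 0 := by
    by_contra hcon
    push Not at hcon
    exact mul_ne_zero hEd hXh0 (hol_ext fun z => by rw [hcon z, map_zero])
  rw [map_mul] at ha
  obtain ⟨W', hW0', hW1, hW2, hW3⟩ := multi_family_all bb U V hV Ef η m p hE L a
  let W : Fin (N + 1) → MvPolynomial (Fin w) ℂ := fun j => W' (Fin.castSucc j)
  have hWa : ∀ j, eval (fun _ => 1) (W j) = f a j := by
    intro j
    rw [hW2, ← hfU a a.2, hfc]
  have hUf : ∀ z ∈ S, (fun j => ∑ k, ∑ l, L j k l * U z k l) = f' z := fun z hz =>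
    funext fun j => (hfU z hz j).symm
  refine ⟨i0, j, W, h0, hj, ?_, ?_, ?_, ?_⟩
  · rintro G ⟨e, he⟩ hv
    have h1 := (hpt.rel G ⟨e, he⟩).1 hv
    have h2 := hW1 (rename Fin.castSucc G) ⟨e, he.rename_isHomogeneous⟩ (by
      intro z hz
      rw [hUf z hz, eval_rename]
      have h3 : f' z ∘ Fin.castSucc = f z := funext fun j => hfc z j
      rw [h3]
      exact h1 z (hSΩ hz))
    rw [aeval_rename] at h2
    exact h2
  · rw [hWa]
    intro h1
    apply right_ne_zero_of_mul ha
    rw [hXh, h1]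
  · have h2 : (Matrix.of fun i l => eval (fun _ => (1 : ℂ))
        (pderiv i (W (j l)) * W i0 - W (j l) * pderiv i (W i0))).det = evz a Δ := by
      rw [hΔ, AlgHom.map_det]
      congr 1
      ext i l
      rw [Matrix.of_apply, AlgHom.mapMatrix_apply, Matrix.map_apply, Matrix.of_apply]
      have h3 := hW3 i (X (Fin.castSucc (j l))) (X (Fin.castSucc i0)) 1 (isHomogeneous_X ℂ _)
        (isHomogeneous_X ℂ _)
      rw [aeval_X, aeval_X] at h3
      exact h3
    rw [h2]
    exact left_ne_zero_of_mul ha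
  · intro x hx hQ0
    have h1 := hW0' x hx (rename Fin.castSucc Q * X (Fin.last (N + 1)) - 1) (by
      intro z hz
      rw [hUf z hz, map_sub, map_mul, eval_rename, eval_X, hfl, map_one]
      have h3 : f' z ∘ Fin.castSucc = f z := funext fun j => hfc z j
      rw [h3, hQh z (hSΩ hz), sub_self])
    rw [map_sub, map_mul, eval_rename, eval_X, map_one] at h1
    have h4 : eval ((fun j => (∏ i, x i ^ m i)⁻¹ * eval x (W' j)) ∘ Fin.castSucc) Q = 0 := by
      have h5 : ((fun j => (∏ i, x i ^ m i)⁻¹ * eval x (W' j)) ∘ Fin.castSucc) =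
          fun j => (∏ i, x i ^ m i)⁻¹ * eval x (W j) := rfl
      rw [h5, eval_smul_homog hQ]
      have h6 := MvPolynomial.comp_aeval_apply (f := W)
        (aeval x : MvPolynomial (Fin w) ℂ →ₐ[ℂ] ℂ) Q
      rw [← MvPolynomial.aeval_eq_eval] at hQ0
      rw [h6, MvPolynomial.aeval_eq_eval] at hQ0
      have h7 : (fun j => aeval x (W j)) = fun j => eval x (W j) := by
        funext j
        rw [MvPolynomial.aeval_eq_eval]
      rw [h7] at hQ0
      rw [hQ0, mul_zero]
    rw [h4, zero_mul, zero_sub] at h1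
    exact neg_ne_zero.2 one_ne_zero h1

/-- the parametrization is dominant -/
theorem par_iff {N w : ℕ} {K : Type} [Field K] [Algebra ℂ K] {y : Fin (N + 1) → K}
    {i0 : Fin (N + 1)} {j : Fin w → Fin (N + 1)} {W : Fin (N + 1) → MvPolynomial (Fin w) ℂ}
    (h0 : y i0 ≠ 0) (hj : IsTranscendenceBasis ℂ (fun l => y (j l) / y i0))
    (hrel : ∀ G : MvPolynomial (Fin (N + 1)) ℂ, IsForm G → W602.GT.val y G = 0 → aeval W G = 0)
    (hW1 : eval (fun _ => 1) (W i0) ≠ 0)
    (hdet : (Matrix.of fun i l => eval (fun _ => 1)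
        (pderiv i (W (j l)) * W i0 - W (j l) * pderiv i (W i0))).det ≠ 0)
    (G : MvPolynomial (Fin (N + 1)) ℂ) (hG : IsForm G) :
    W602.GT.val y G = 0 ↔ aeval W G = 0 := by
  classical
  let FR := FractionRing (MvPolynomial (Fin w) ℂ)
  let y' : Fin (N + 1) → FR := fun j => algebraMap _ FR (W j)
  have hinj : Function.Injective (algebraMap (MvPolynomial (Fin w) ℂ) FR) :=
    IsFractionRing.injective _ _
  have hW0 : W i0 ≠ 0 := by
    intro h1
    apply hW1
    rw [h1, map_zero]
  have h0' : y' i0 ≠ 0 := by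
    change algebraMap _ FR (W i0) ≠ 0
    rw [Ne, map_eq_zero_iff _ hinj]
    exact hW0
  obtain ⟨D', hD'⟩ := exists_pd (k := ℂ) w
  have hjac : AlgebraicIndependent ℂ (fun l => y' (j l) / y' i0) := by
    apply jac_indep D'
    intro hdet0
    have h1 : (Matrix.of fun i l => pderiv i (W (j l)) * W i0 - W (j l) * pderiv i (W i0)).det
        = 0 := by
      apply hinj
      rw [map_zero, RingHom.map_det]
      have h2 : (algebraMap (MvPolynomial (Fin w) ℂ) FR).mapMatrix
          (Matrix.of fun i l => pderiv i (W (j l)) * W i0 - W (j l) * pderiv i (W i0)) =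
          (y' i0 ^ 2) • Matrix.of fun i l => D' i (y' (j l) / y' i0) := by
        ext i l
        rw [RingHom.mapMatrix_apply, Matrix.map_apply, Matrix.smul_apply, Matrix.of_apply,
          Matrix.of_apply, smul_eq_mul, ← der_quot (D' i) h0', map_sub, map_mul, map_mul]
        change _ = D' i (algebraMap _ _ (W (j l))) * _ - _ * D' i (algebraMap _ _ (W i0))
        rw [hD', hD']
      rw [h2, Matrix.det_smul, hdet0, mul_zero]
    apply hdet
    have h2 := congrArg (eval (fun _ => (1 : ℂ))) h1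
    rw [map_zero, RingHom.map_det] at h2
    rw [← h2]
    congr 1
  have hval : ∀ G : MvPolynomial (Fin (N + 1)) ℂ, W602.GT.val y' G = algebraMap _ FR (aeval W G) :=
    fun G => (MvPolynomial.comp_aeval_apply (f := W)
      (IsScalarTower.toAlgHom ℂ (MvPolynomial (Fin w) ℂ) FR) G).symm
  have hspec : ∀ G : MvPolynomial (Fin (N + 1)) ℂ, IsForm G →
      W602.GT.val y G = 0 → W602.GT.val y' G = 0 := by
    intro G hG hv
    rw [hval, hrel G hG hv, map_zero]
  rw [spec_iff h0 h0' hspec hj hjac G hG, hval, map_eq_zero_iff _ hinj]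

end Pool.Agent.TH8.UNI
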