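import Pool.Agent.TH8.UNI.Dense

/-!
Linear systems for the coordinates of a curve.
-/

set_option autoImplicit false

open MvPolynomial Metric Set Filter Topology Pool.Agent.TH143 Pool.Agent.TH143.GT
  Pool.Agent.W602.GT

namespace Pool.Agent.TH8.UNI

/-- **The system of a curve**: on a ball, the coordinates of the curve are linear forms in the
entries of a fundamental matrix of a linear system over the ring of coefficients. -/
theorem exists_setup {Ω : Set ℂ} (hΩ : IsOpen Ω) (hΩc : IsPreconnected Ω) (hne : Ω.Nonempty)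
    {B : Subalgebra ℂ (ℂ → ℂ)} (hB : DiffRing Ω B) {N : ℕ}
    (f : ℂ → Fin (N + 1) → ℂ) (hf : ∀ j, AnalyticOnNhd ℂ (fun w => f w j) Ω)
    (hlin : ∀ j, LinOver Ω B (fun w => f w j)) :
    ∃ (z0 : ℂ) (r : ℝ) (s : ℂ → ℂ) (hsB : s ∈ B) (hs : ∀ z ∈ ball z0 r, s z ≠ 0) (n : ℕ)
      (bb : B × ℕ → ℂ → ℂ) (hbb : ∀ p, AnalyticOnNhd ℂ (bb p) (ball z0 r))
      (dd : B × ℕ → B × ℕ) (A : Fin n → Fin n → B × ℕ) (U : ℂ → Matrix (Fin n) (Fin n) ℂ)
      (L : Fin (N + 1) → Fin n → Fin n → ℂ), 0 < r ∧ ball z0 r ⊆ Ω ∧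
      (∀ i, ∀ z ∈ ball z0 r, HasDerivAt (bb i) (bb (dd i) z) z) ∧
      (∀ z ∈ ball z0 r, ∀ i j, HasDerivAt (fun w => U w i j) (∑ k, bb (A i k) z * U z k j) z) ∧
      (∀ z ∈ ball z0 r, (U z).det ≠ 0) ∧
      (∀ i, toHol (bb i) (hbb i) ∈ locAlg B s hsB (ball z0 r) hs) ∧
      ∀ z ∈ ball z0 r, ∀ j, f z j = ∑ k, ∑ l, L j k l * U z k l := by
  classical
  choose m l a hlB haB hl0 hnorm using fun j => (hlin j).normal
  -- a nonzero product of analytic functions
  have hprod : ∀ T : Finset (Fin (N + 1)), ∃ z ∈ Ω, (∏ j ∈ T, l j z) ≠ 0 := by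
    intro T
    induction T using Finset.induction_on with
    | empty =>
      obtain ⟨z, hz⟩ := hne
      exact ⟨z, hz, by simp⟩
    | insert j T hj ih =>
      by_contra hcon
      push Not at hcon
      simp only [Finset.prod_insert hj] at hcon
      have hT : AnalyticOnNhd ℂ (fun z => ∏ j ∈ T, l j z) Ω := by
        intro z hz
        apply Finset.analyticAt_fun_prod
        intro i _
        exact hB.an _ (hlB i) z hz
      rcases AnalyticOnNhd.eq_zero_or_eq_zero_of_mul_eq_zero (hB.an _ (hlB j)) hT hcon hΩc with h | h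
      · obtain ⟨z, hz, hz'⟩ := hl0 j
        exact hz' (h z hz)
      · obtain ⟨z, hz, hz'⟩ := ih
        exact hz' (h z hz)
  let s : ℂ → ℂ := ∏ j, l j
  have hs : ∀ z, s z = ∏ j, l j z := fun z => Finset.prod_apply z _ _
  have hsB : s ∈ B := B.prod_mem fun j _ => hlB j
  obtain ⟨z0, hz0, hsz0⟩ := hprod Finset.univ
  rw [← hs] at hsz0
  have hsan := hB.an s hsB
  -- the system
  let num : Fin (N + 1) → ℕ → ℂ → ℂ := fun j k => a j k * ∏ i ∈ Finset.univ.erase j, l i
  have hnumB : ∀ j k, num j k ∈ B := fun j k =>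
    B.mul_mem (haB j k) (B.prod_mem fun i _ => hlB i)
  have hnum : ∀ j k z, s z ≠ 0 → l j z ≠ 0 ∧ num j k z / s z = a j k z / l j z := by
    intro j k z hz
    have h2 : s z = l j z * ∏ i ∈ Finset.univ.erase j, l i z := by
      rw [hs, Finset.mul_prod_erase _ (fun i => l i z) (Finset.mem_univ j)]
    have h3 : l j z ≠ 0 := fun h => hz (by rw [h2, h, zero_mul])
    have h4 : (∏ i ∈ Finset.univ.erase j, l i z) ≠ 0 := fun h => hz (by rw [h2, h, mul_zero])
    refine ⟨h3, ?_⟩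
    simp only [num, Pi.mul_apply, Finset.prod_apply]
    rw [h2]
    field_simp
  obtain ⟨n, A, y, L, hA, hsys⟩ := exists_system (fun j w => f w j) m
    (fun j k z => num j k z / s z)
  set Ω' := {z ∈ Ω | s z ≠ 0} with hΩ'
  have hΩ'o : IsOpen Ω' := by
    rw [isOpen_iff_mem_nhds]
    intro z hz
    filter_upwards [hΩ.mem_nhds hz.1,
      (hsan z hz.1).continuousAt.eventually_ne hz.2] with w h2 h3
    exact ⟨h2, h3⟩
  have hsys' : ∀ w ∈ Ω', (∀ i, HasDerivAt (fun w => y w i) (∑ k, A i k w * y w k) w) ∧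
      ∀ j, f w j = ∑ k, L j k * y w k := by
    intro w hw
    apply hsys w (fun j => hf j w hw.1)
    intro j
    rw [hnorm j w hw.1 (hnum j 0 w hw.2).1]
    refine Finset.sum_congr rfl fun k _ => ?_
    rw [(hnum j k w hw.2).2]
  have hAB : ∀ i k, ∃ b ∈ B, ∀ z ∈ Ω', A i k z = b z / s z ^ 1 := by
    intro i k
    obtain ⟨α, ε, j, p, hp⟩ := hA i k
    refine ⟨algebraMap ℂ (ℂ → ℂ) α * s + algebraMap ℂ (ℂ → ℂ) ε * num j p,
      B.add_mem (B.mul_mem (B.algebraMap_mem α) hsB) (B.mul_mem (B.algebraMap_mem ε) (hnumB j p)),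
      fun z hz => ?_⟩
    rw [hp, Pi.add_apply, Pi.mul_apply, Pi.mul_apply]
    have h2 := hz.2
    have h3 : ∀ c : ℂ, (algebraMap ℂ (ℂ → ℂ) c) z = c := fun c => rfl
    rw [h3, h3]
    field_simp
  choose bA hbA hbAe using hAB
  choose! der hderB hder using hB.der
  have hAan : ∀ i k, AnalyticOnNhd ℂ (fun z => bA i k z / s z ^ 1) Ω' := fun i k z hz =>
    (hB.an _ (hbA i k) z hz.1).fun_div ((hsan z hz.1).fun_pow 1) (pow_ne_zero _ hz.2)
  obtain ⟨r, hr, hrS, U, hU, hdet⟩ := exists_fund hΩ'o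
    (fun z => Matrix.of fun i k => bA i k z / s z ^ 1) (fun i k => by
      simpa only [Matrix.of_apply] using hAan i k)
    (show z0 ∈ Ω' from ⟨hz0, hsz0⟩)
  set S := ball z0 r with hS
  have hz0S : z0 ∈ S := mem_ball_self hr
  have hSo : IsOpen S := isOpen_ball
  have hSc : IsPreconnected S := (convex_ball z0 r).isPreconnected
  have hSs : ∀ z ∈ S, s z ≠ 0 := fun z hz => (hrS hz).2
  have hSΩ : S ⊆ Ω := fun z hz => (hrS hz).1
  set c : Fin n → ℂ := Matrix.mulVec (U z0)⁻¹ (y z0) with hc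
  have hyU : ∀ z ∈ S, ∀ i, y z i = ∑ l, U z i l * c l := by
    have h2 := sol_zero (a := z0) (r := r) (fun i k z => bA i k z / s z ^ 1)
      (fun i k => (hAan i k).mono hrS)
      (fun z i => y z i - ∑ l, U z i l * c l) (by
        intro z hz i
        have h3 := (hsys' z (hrS hz)).1 i
        have h4 : HasDerivAt (fun z => ∑ l, U z i l * c l)
            (∑ l, (∑ k, bA i k z / s z ^ 1 * U z k l) * c l) z := by
          apply HasDerivAt.fun_sum
          intro l _
          have h5 := (hU z hz i l).mul_const (c l)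
          rw [Matrix.mul_apply] at h5
          exact h5
        refine (h3.fun_sub h4).congr_deriv ?_
        simp only [hbAe _ _ z (hrS hz), mul_sub, Finset.sum_sub_distrib, Finset.sum_mul,
          Finset.mul_sum]
        congr 1
        rw [Finset.sum_comm]
        refine Finset.sum_congr rfl fun k _ => Finset.sum_congr rfl fun l _ => ?_
        ring) (by
        intro i
        have h6 : ∑ l, U z0 i l * c l = y z0 i := by
          have h7 : Matrix.mulVec (U z0) c = y z0 := by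
            rw [hc, Matrix.mulVec_mulVec, Matrix.mul_nonsing_inv _ ((hdet z0 hz0S).isUnit),
              Matrix.one_mulVec]
          rw [← h7]
          rfl
        rw [h6, sub_self])
    intro z hz i
    exact sub_eq_zero.mp (h2 z hz i)
  -- the coefficients
  let bb : B × ℕ → ℂ → ℂ := fun p z => p.1.1 z / s z ^ p.2
  have hbb : ∀ p, AnalyticOnNhd ℂ (bb p) S := fun p z hz =>
    (hB.an _ p.1.2 z (hSΩ hz)).fun_div ((hsan z (hSΩ hz)).fun_pow _) (pow_ne_zero _ (hSs z hz))
  let dd : B × ℕ → B × ℕ := fun p =>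
    (⟨der p.1.1 * s - algebraMap ℂ (ℂ → ℂ) (p.2 : ℂ) * p.1.1 * der s,
      B.sub_mem (B.mul_mem (hderB _ p.1.2) hsB)
        (B.mul_mem (B.mul_mem (B.algebraMap_mem _) p.1.2) (hderB _ hsB))⟩, p.2 + 1)
  have hdd : ∀ p, ∀ z ∈ S, HasDerivAt (bb p) (bb (dd p) z) z := by
    rintro ⟨b, k⟩ z hz
    have h2 := hder b.1 b.2 z (hSΩ hz)
    have h3 := hder s hsB z (hSΩ hz)
    have h4 := hSs z hz
    refine (h2.fun_div (h3.fun_pow k) (pow_ne_zero k h4)).congr_deriv ?_
    have h5 : ∀ c : ℂ, (algebraMap ℂ (ℂ → ℂ) c) z = c := fun c => rfl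
    simp only [bb, dd, Pi.sub_apply, Pi.mul_apply, h5]
    cases k with
    | zero => simp; field_simp
    | succ k =>
      rw [Nat.add_sub_cancel]
      field_simp
      ring
  refine ⟨z0, r, s, hsB, hSs, n, bb, hbb, dd, fun i k => (⟨bA i k, hbA i k⟩, 1), U,
    fun j k l => L j k * c l, hr, hSΩ, hdd, ?_, hdet, ?_, ?_⟩
  · intro z hz i j
    have := hU z hz i j
    rw [Matrix.mul_apply] at this
    exact this
  · intro p
    exact ⟨p.1.1, p.1.2, p.2, fun z => rfl⟩
  · intro z hz j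
    rw [(hsys' z (hrS hz)).2 j]
    refine Finset.sum_congr rfl fun k _ => ?_
    rw [hyU z hz k, Finset.mul_sum]
    refine Finset.sum_congr rfl fun l _ => ?_
    ring

end Pool.Agent.TH8.UNI
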